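import Mathlib
import Pool.Agent.Lib.MP_3d42d9_lc.Avg

namespace Pool.Agent.Lib.MP_3d42d9_lc

/-- Effectively closed classes: the complement is the union of a c.e. set of cylinders. -/
def EffClosed (P : Set (ℕ → Bool)) : Prop :=
  ∃ f : List Bool →. Unit, Partrec f ∧ Pᶜ = ⋃ τ ∈ {τ : List Bool | (f τ).Dom}, cyl τ

/-- Uniformly effectively open families of classes, indexed by finite strings. -/
def UnifOpen (V : List Bool → Set (ℕ → Bool)) : Prop :=
  ∃ f : List Bool × List Bool →. Unit, Partrec f ∧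
    ∀ ρ, V ρ = ⋃ τ ∈ {τ : List Bool | (f (ρ, τ)).Dom}, cyl τ

end Pool.Agent.Lib.MP_3d42d9_lc
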