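import Mathlib
import Pool.Agent.Lib.MP_3d42d9_lc.Inv
import Pool.Agent.Lib.MP_3d42d9_lc.TR.Defs

namespace Pool.Agent.Lib.MP_3d42d9_lc.TR

open MeasureTheory

/-- Minimal strings with a property. -/
def MinS (R : List Bool → Prop) (τ : List Bool) : Prop :=
  R τ ∧ ∀ n < τ.length, ¬ R (τ.take n)

/-- The open set generated by the strings with a property. -/
def Gen (R : List Bool → Prop) : Set Cs := {Y | ∃ n, R (pre n Y)}

/-- Points with an initial segment whose cylinder is almost filled by `X`. -/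
def hull (j : ℕ) (X : Set Cs) : Set Cs :=
  {Y | ∃ m, coin (cyl (pre m Y) \ X) < 2⁻¹ ^ (m + j + 1)}

theorem take_pre {m n : ℕ} (h : m ≤ n) (Y : Cs) : (pre n Y).take m = pre m Y := by
  apply List.ext_getElem (by simp [h])
  intro i h1 h2
  simp [pre]

theorem pre_toC (l : List Bool) : pre l.length (toC l) = l := by
  apply List.ext_getElem (by simp)
  intro i h1 h2
  simp [pre, toC, h2]

theorem pre_toC_take (l : List Bool) {m : ℕ} (h : m ≤ l.length) : pre m (toC l) = l.take m := by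
  rw [← take_pre h, pre_toC]

theorem pre_toC_pre {m n : ℕ} (h : m ≤ n) (Y : Cs) : pre m (toC (pre n Y)) = pre m Y := by
  rw [pre_toC_take _ (by simpa using h), take_pre h]

theorem pre_eq_iff {n : ℕ} {Y Z : Cs} : pre n Y = pre n Z ↔ ∀ i < n, Y i = Z i := by
  constructor
  · intro h i hi
    rw [← toC_pre Y hi, h, toC_pre Z hi]
  · intro h
    exact dep_pre n Y Z h

theorem mem_cyl_pre_iff {n : ℕ} {Y Z : Cs} : Z ∈ cyl (pre n Y) ↔ pre n Z = pre n Y := by
  rw [mem_cyl_iff, length_pre, eq_comm]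

theorem pre_mem_allStr (n : ℕ) (Y : Cs) : pre n Y ∈ allStr n := by
  induction n with
  | zero => simp [pre, allStr]
  | succ n ih =>
    simp only [allStr, List.mem_flatMap, List.mem_cons, List.not_mem_nil, or_false]
    refine ⟨pre n Y, ih, ?_⟩
    cases h : Y n <;> simp [pre, List.range_succ, h]

theorem measurableSet_cyl (τ : List Bool) : MeasurableSet (cyl τ) := by
  have : cyl τ = {Y | (τ == pre τ.length Y) = true} := by
    ext Y; simp [mem_cyl_iff]
  rw [this]
  exact measurableSet_dep ((dep_pre τ.length).comp fun l => τ == l)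

theorem coin_cyl (τ : List Bool) : coin (cyl τ) = 2⁻¹ ^ τ.length := by
  have : cyl τ = {X | ∀ i ∈ Finset.range τ.length, X i = toC τ i} := by
    ext Y
    rw [← pre_toC τ, mem_cyl_pre_iff, pre_eq_iff]
    simp [pre_toC]
  rw [this, coin_pat, Finset.card_range]

theorem exists_min {R : List Bool → Prop} {Y : Cs} (h : Y ∈ Gen R) :
    ∃ n, MinS R (pre n Y) := by
  classical
  refine ⟨Nat.find h, Nat.find_spec h, fun m hm => ?_⟩
  rw [length_pre] at hm
  rw [take_pre hm.le]
  exact Nat.find_min h hm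

/-- Sets attached to the minimal strings, each of measure at most `a` times its cylinder. -/
theorem cover_le (R : List Bool → Prop) (F : List Bool → Set Cs) (a : ENNReal)
    (h : ∀ τ, MinS R τ → coin (F τ) ≤ a * 2⁻¹ ^ τ.length) :
    coin (⋃ τ ∈ {τ | MinS R τ}, F τ) ≤ a * coin (Gen R) := by
  have hc : {τ | MinS R τ}.Countable := Set.to_countable _
  have hd : {τ | MinS R τ}.PairwiseDisjoint cyl := by
    intro τ hτ σ hσ hne
    rw [Function.onFun, Set.disjoint_left]
    intro Y h1 h2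
    have h3 := mem_cyl_iff.1 h1
    have h4 := mem_cyl_iff.1 h2
    rcases lt_trichotomy τ.length σ.length with h | h | h
    · refine hσ.2 _ h ?_
      rw [h4, take_pre h.le, ← h3]
      exact hτ.1
    · exact hne (by rw [h3, h4, h])
    · refine hτ.2 _ h ?_
      rw [h3, take_pre h.le, ← h4]
      exact hσ.1
  have hsub : (⋃ τ ∈ {τ | MinS R τ}, cyl τ) ⊆ Gen R := by
    intro Y hY
    simp only [Set.mem_iUnion] at hY
    obtain ⟨τ, h1, h2⟩ := hY
    exact ⟨τ.length, by rw [← mem_cyl_iff.1 h2]; exact h1.1⟩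
  refine (measure_biUnion_le _ hc _).trans ?_
  refine le_trans ?_ (mul_le_mul_right (measure_mono hsub) a)
  rw [measure_biUnion hc hd fun τ _ => measurableSet_cyl τ, ← ENNReal.tsum_mul_left]
  refine ENNReal.tsum_le_tsum fun τ => ?_
  rw [coin_cyl]
  exact h τ τ.2

theorem hull_mono (j : ℕ) {X X' : Set Cs} (h : X ⊆ X') : hull j X ⊆ hull j X' := by
  rintro Y ⟨m, hm⟩
  exact ⟨m, (measure_mono (Set.sdiff_subset_sdiff_right h)).trans_lt hm⟩

theorem mem_hull_of_cyl (j : ℕ) {X : Set Cs} {Y : Cs} {m : ℕ} (h : cyl (pre m Y) ⊆ X) :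
    Y ∈ hull j X := by
  refine ⟨m, ?_⟩
  rw [Set.sdiff_eq_empty.2 h, measure_empty]
  exact ENNReal.pow_pos (by simp) _

theorem hull_le (j : ℕ) (X : Set Cs) :
    coin (hull j X) ≤ coin X + 2⁻¹ ^ (j + 1) * coin (hull j X) := by
  set R : List Bool → Prop := fun τ => coin (cyl τ \ X) < 2⁻¹ ^ (τ.length + j + 1) with hR
  have h1 : Gen R = hull j X := by
    ext Y; simp [Gen, hull, hR]
  have h2 := cover_le R (fun τ => cyl τ \ X) (2⁻¹ ^ (j + 1)) fun τ hτ => by
    rw [← pow_add, show j + 1 + τ.length = τ.length + j + 1 by omega]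
    exact hτ.1.le
  rw [h1] at h2
  have h3 : hull j X ⊆ X ∪ ⋃ τ ∈ {τ | MinS R τ}, cyl τ \ X := by
    intro Y hY
    by_cases hX : Y ∈ X
    · exact Or.inl hX
    · rw [← h1] at hY
      obtain ⟨n, hn⟩ := exists_min hY
      exact Or.inr (Set.mem_biUnion (x := pre n Y) hn ⟨mem_cyl_pre n Y, hX⟩)
  exact (measure_mono h3).trans ((measure_union_le _ _).trans (by gcongr))

theorem hull_real (j : ℕ) (X : Set Cs) : (coin (hull j X)).toReal ≤
    (coin X).toReal + (1 / 2) ^ (j + 1) * (coin (hull j X)).toReal := by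
  have h := ENNReal.toReal_mono (by finiteness) (hull_le j X)
  rw [ENNReal.toReal_add (by finiteness) (by finiteness), ENNReal.toReal_mul] at h
  simpa using h

theorem hull_bound {j : ℕ} {X : Set Cs} {d : ℝ} (hd : 0 ≤ d)
    (h : coin X ≤ ENNReal.ofReal (d * (1 + (1 / 2) ^ (j + 1)))) :
    coin (hull (j + 1) X) ≤ ENNReal.ofReal (d * (1 + (1 / 2) ^ j)) := by
  have h1 := hull_real (j + 1) X
  have h2 : (coin X).toReal ≤ d * (1 + (1 / 2) ^ (j + 1)) :=
    ENNReal.toReal_le_of_le_ofReal (by positivity) h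
  rw [← ENNReal.ofReal_toReal (measure_ne_top coin (hull (j + 1) X))]
  refine ENNReal.ofReal_le_ofReal ?_
  set y := (coin (hull (j + 1) X)).toReal
  have h3 : (0 : ℝ) < (1 / 2) ^ j := by positivity
  have h4 : ((1 : ℝ) / 2) ^ j ≤ 1 := pow_le_one₀ (by norm_num) (by norm_num)
  rw [pow_succ] at h2
  rw [pow_succ, pow_succ] at h1
  set x := ((1 : ℝ) / 2) ^ j
  by_contra hc
  push Not at hc
  have h5 : d * (1 + x) * (1 - x / 4) ≤ y * (1 - x / 4) :=
    mul_le_mul_of_nonneg_right hc.le (by linarith)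
  have h6 : d * (1 + x) * (1 - x / 4) < y * (1 - x / 4) :=
    mul_lt_mul_of_pos_right hc (by linarith)
  have h7 : 0 ≤ d * (x * (1 - x)) := mul_nonneg hd (mul_nonneg h3.le (by linarith))
  nlinarith

theorem hull_zero_bound {X : Set Cs} {d : ℝ} (hd : 0 ≤ d) (h : coin X ≤ ENNReal.ofReal d) :
    coin (hull 0 X) ≤ ENNReal.ofReal (2 * d) := by
  have h1 := hull_real 0 X
  have h2 : (coin X).toReal ≤ d := ENNReal.toReal_le_of_le_ofReal hd h
  rw [← ENNReal.ofReal_toReal (measure_ne_top coin (hull 0 X))]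
  refine ENNReal.ofReal_le_ofReal ?_
  norm_num at h1
  linarith

theorem ofReal_half (n : ℕ) : ENNReal.ofReal ((1 / 2) ^ n) = 2⁻¹ ^ n := by
  rw [ENNReal.ofReal_pow (by norm_num), one_div, ENNReal.ofReal_inv_of_pos (by norm_num)]
  simp

end Pool.Agent.Lib.MP_3d42d9_lc.TR
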