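import Mathlib
import Pool.Agent.Lib.MP_3d42d9_lc.TR.Min

namespace Pool.Agent.Lib.MP_3d42d9_lc.TR

open MeasureTheory Encodable Nat.Partrec Nat.Partrec.Code

theorem cnt_lt_iff {N : ℕ} {p : Cs → Bool} (h : Dep N p) (a : ℕ) :
    cnt N (fun X => (p X).toNat) * 2 ^ a < 2 ^ N ↔ coin {X | p X = true} < 2⁻¹ ^ a := by
  rw [coin_dep h, ← ofReal_half, ENNReal.ofReal_lt_ofReal_iff (by positivity),
    ← Nat.cast_lt (α := ℝ)]
  push_cast
  rw [cnt_eq]
  simp only [ind_toNat]
  rw [one_div_pow, lt_div_iff₀ (by positivity), mul_assoc, mul_lt_iff_lt_one_right (by positivity)]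

theorem lt_cnt_iff {N : ℕ} {p : Cs → Bool} (h : Dep N p) (a b : ℕ) :
    2 ^ N * 2 ^ b < cnt N (fun X => (p X).toNat) * 2 ^ a ↔
      2 ^ b * 2⁻¹ ^ a < coin {X | p X = true} := by
  have h1 : (2 : ENNReal) ^ b * 2⁻¹ ^ a = ENNReal.ofReal (2 ^ b * (1 / 2) ^ a) := by
    rw [ENNReal.ofReal_mul (by positivity), ofReal_half, ENNReal.ofReal_pow (by norm_num)]
    simp
  rw [coin_dep h, h1, ENNReal.ofReal_lt_ofReal_iff_of_nonneg (by positivity),
    ← Nat.cast_lt (α := ℝ)]
  push_cast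
  rw [cnt_eq]
  simp only [ind_toNat]
  rw [one_div_pow, mul_one_div, div_lt_iff₀ (by positivity), mul_assoc,
    mul_lt_mul_iff_right₀ (by positivity)]

theorem cnt_ok_iff {N : ℕ} {p : Cs → Bool} (h : Dep N p) (a d : ℕ) :
    cnt N (fun X => (p X).toNat) * 2 ^ (a + d) + 2 ^ N ≤ 2 ^ (N + d) ↔
      coin {X | p X = true} + 2⁻¹ ^ (a + d) ≤ 2⁻¹ ^ a := by
  have h0 : 0 ≤ Av N (fun X => ind (p X)) := Av_nonneg _ fun _ => ind_nonneg _
  rw [coin_dep h, ← ofReal_half, ← ofReal_half, ← ENNReal.ofReal_add h0 (by positivity),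
    ENNReal.ofReal_le_ofReal_iff (by positivity), ← Nat.cast_le (α := ℝ)]
  push_cast
  rw [cnt_eq]
  simp only [ind_toNat]
  set x := Av N (fun X => ind (p X))
  have h1 : (2 : ℝ) ^ N * x * 2 ^ (a + d) + 2 ^ N
      = (2 ^ N * 2 ^ (a + d)) * (x + (1 / 2) ^ (a + d)) := by
    rw [one_div_pow]; field_simp
  have h2 : (2 : ℝ) ^ (N + d) = (2 ^ N * 2 ^ (a + d)) * (1 / 2) ^ a := by
    rw [one_div_pow, pow_add, pow_add]; field_simp
  rw [h1, h2, mul_le_mul_iff_right₀ (by positivity)]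

theorem gen_eq (R : List Bool → Prop) :
    {Y : Cs | ∃ t, R (pre t Y)} = ⋃ τ ∈ {τ | R τ}, cyl τ := by
  ext Y
  simp only [Set.mem_ofPred_eq, Set.mem_iUnion]
  constructor
  · rintro ⟨t, ht⟩
    exact ⟨_, ht, mem_cyl_pre t Y⟩
  · rintro ⟨τ, h1, h2⟩
    exact ⟨τ.length, by rw [← mem_cyl_iff.1 h2]; exact h1⟩

theorem partrec_of_pr {α : Type} [Primcodable α] {g : α → Bool} (hg : PR g) :
    ∃ f : α →. Unit, Partrec f ∧ ∀ a, (f a).Dom ↔ g a = true := by
  have h1 : PR (fun a => bif g a then some () else none) := by fun_prop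
  refine ⟨_, h1.primrec.to_comp.ofOption, fun a => ?_⟩
  cases g a <;> simp

theorem unifOpen_of_stage {g : List Bool → List Bool → Bool}
    (hg : PR (fun p : List Bool × List Bool => g p.1 p.2)) :
    UnifOpen (fun ρ => {Y | ∃ t, g ρ (pre t Y) = true}) := by
  obtain ⟨f, hf, hf'⟩ := partrec_of_pr (g := fun p : List Bool × List Bool => g p.1 p.2) hg
  refine ⟨f, hf, fun ρ => ?_⟩
  simp only [hf']
  exact gen_eq (fun τ => g ρ τ = true)

theorem effClosed_of_stage {g : List Bool → Bool} (hg : PR g) :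
    EffClosed {Y | ∃ t, g (pre t Y) = true}ᶜ := by
  obtain ⟨f, hf, hf'⟩ := partrec_of_pr hg
  refine ⟨f, hf, ?_⟩
  simp only [hf', compl_compl]
  exact gen_eq (fun τ => g τ = true)

theorem test_of_stage (C : Cs) {Ψ : List Bool → ℕ → List Bool → Bool}
    (hΨ : PR (fun p : List Bool × ℕ × List Bool => Ψ p.1 p.2.1 p.2.2))
    (hμ : ∀ n, coin {Y | ∃ t, Ψ (pre t C) n (pre t Y) = true} ≤ 2⁻¹ ^ n) :
    IsMLTest C (fun n => {Y | ∃ t, Ψ (pre t C) n (pre t Y) = true}) := by
  have h1 : PR (fun p : List Bool × ℕ × List Bool =>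
      Ψ (pre p.2.2.length (toC p.1)) p.2.1 p.2.2) :=
    PR.comp' (g := fun p : List Bool × ℕ × List Bool =>
      (pre p.2.2.length (toC p.1), p.2.1, p.2.2)) hΨ (by fun_prop)
  obtain ⟨f, hf, hf'⟩ := exists_recursiveIn C (Ψ := fun x a =>
    Nat.ble a.2.length x.length && Ψ (pre a.2.length (toC x)) a.1 a.2) (by fun_prop)
  refine ⟨⟨f, hf, fun n => ?_⟩, hμ⟩
  have h2 : ∀ ρ : List Bool, (f (n, ρ)).Dom ↔ Ψ (pre ρ.length C) n ρ = true := by
    intro ρ
    rw [hf']
    simp only [length_pre, Bool.and_eq_true, Nat.ble_eq]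
    constructor
    · rintro ⟨j, h3, h4⟩
      rwa [pre_toC_pre h3] at h4
    · intro h3
      exact ⟨ρ.length, le_rfl, by rwa [pre_toC_pre le_rfl]⟩
  simp only [h2]
  have := gen_eq (fun ρ => Ψ (pre ρ.length C) n ρ = true)
  simpa only [length_pre] using this

theorem stage_of_unifOpen {V : List Bool → Set Cs} (h : UnifOpen V) :
    ∃ g : List Bool → List Bool → Bool, PR (fun p : List Bool × List Bool => g p.1 p.2) ∧
      (∀ ρ t Y, g ρ (pre t Y) = true → g ρ (pre (t + 1) Y) = true) ∧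
      ∀ ρ, V ρ = {Y | ∃ t, g ρ (pre t Y) = true} := by
  obtain ⟨f, hf, hV⟩ := h
  obtain ⟨c, hc⟩ := exists_code.1 hf
  have hd : ∀ a : List Bool × List Bool,
      (f a).Dom ↔ ∃ s, (evaln s c (encode a)).isSome = true := by
    intro a
    have h1 : (eval c (encode a)).Dom ↔ (f a).Dom := by
      rw [hc]; simp
    rw [← h1, Part.dom_iff_mem]
    simp only [evaln_complete, Option.isSome_iff_exists]
    exact exists_comm
  have hm : ∀ {s s' x}, s ≤ s' → (evaln s c x).isSome = true → (evaln s' c x).isSome = true := by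
    intro s s' x h H
    obtain ⟨y, hy⟩ := Option.isSome_iff_exists.1 H
    exact Option.isSome_iff_exists.2 ⟨y, evaln_mono h hy⟩
  refine ⟨fun ρ σ => (List.range (σ.length + 1)).any fun l =>
    (evaln σ.length c (encode (ρ, pre l (toC σ)))).isSome, ?_, ?_, ?_⟩
  · refine PR.any (by fun_prop) (PR.isSome (primrec_evaln.comp (PR.primrec
      (f := fun q : (List Bool × List Bool) × ℕ =>
        ((q.1.2.length, c), encode (q.1.1, pre q.2 (toC q.1.2)))) (by fun_prop))))
  · intro ρ t Y H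
    simp only [List.any_eq_true, List.mem_range, length_pre] at H ⊢
    obtain ⟨l, hl, H⟩ := H
    rw [pre_toC_pre (by omega)] at H
    exact ⟨l, by omega, by rw [pre_toC_pre (by omega)]; exact hm (by omega) H⟩
  · intro ρ
    rw [hV, ← gen_eq (fun τ => (f (ρ, τ)).Dom)]
    ext Y
    simp only [Set.mem_ofPred_eq, List.any_eq_true, List.mem_range, length_pre, hd]
    constructor
    · rintro ⟨l, s, H⟩
      exact ⟨l + s, l, by omega, by rw [pre_toC_pre (by omega)]; exact hm (by omega) H⟩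
    · rintro ⟨t, l, hl, H⟩
      rw [pre_toC_pre (by omega)] at H
      exact ⟨l, t, H⟩

theorem stage_of_test {C : Cs} {U : ℕ → Set Cs} (h : IsMLTest C U) :
    ∃ Ψ : List Bool → ℕ → List Bool → Bool,
      PR (fun p : List Bool × ℕ × List Bool => Ψ p.1 p.2.1 p.2.2) ∧
      ∀ n, U n = {Y | ∃ t, Ψ (pre t C) n (pre t Y) = true} := by
  obtain ⟨⟨f, hf, hU⟩, -⟩ := h
  obtain ⟨c, hc⟩ := exists_code_of_recursiveIn C hf
  have hm : ∀ {s s' x}, s ≤ s' → (evaln s c x).isSome = true → (evaln s' c x).isSome = true := by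
    intro s s' x h H
    obtain ⟨y, hy⟩ := Option.isSome_iff_exists.1 H
    exact Option.isSome_iff_exists.2 ⟨y, evaln_mono h hy⟩
  refine ⟨fun γ n σ => (List.range (γ.length + 1)).any fun j =>
    (List.range (σ.length + 1)).any fun l => (evaln γ.length c
      (Nat.pair (encode (pre j (toC γ))) (Nat.pair n (encode (pre l (toC σ)))))).isSome, ?_, ?_⟩
  · refine PR.any (by fun_prop) (PR.any (by fun_prop) (PR.isSome (primrec_evaln.comp (PR.primrec
      (f := fun q : ((List Bool × ℕ × List Bool) × ℕ) × ℕ =>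
        ((q.1.1.1.length, c), Nat.pair (encode (pre q.1.2 (toC q.1.1.1)))
          (Nat.pair q.1.1.2.1 (encode (pre q.2 (toC q.1.1.2.2)))))) (by fun_prop)))))
  · intro n
    rw [hU, ← gen_eq (fun τ => (f (n, τ)).Dom)]
    ext Y
    simp only [Set.mem_ofPred_eq, List.any_eq_true, List.mem_range, length_pre, hc]
    constructor
    · rintro ⟨l, j, s, H⟩
      refine ⟨l + j + s, j, by omega, l, by omega, ?_⟩
      rw [pre_toC_pre (by omega), pre_toC_pre (by omega)]
      exact hm (by omega) H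
    · rintro ⟨t, j, hj, l, hl, H⟩
      rw [pre_toC_pre (by omega), pre_toC_pre (by omega)] at H
      exact ⟨l, j, t, H⟩

theorem EffClosed.meas {P : Set Cs} (h : EffClosed P) : MeasurableSet P := by
  obtain ⟨f, -, hf⟩ := h
  rw [← compl_compl P, hf]
  exact (MeasurableSet.biUnion (Set.to_countable _) fun τ _ => measurableSet_cyl τ).compl

end Pool.Agent.Lib.MP_3d42d9_lc.TR
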