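import Mathlib
import Pool.Agent.Lib.MP_3d42d9_lc.TR.Stage

namespace Pool.Agent.Lib.MP_3d42d9_lc.TR

open MeasureTheory

/-- At stage `γ.length` the set attached to `τ` still leaves a fraction `2^-d` of the cylinder. -/
def okb (d : ℕ) (e : List Bool → List Bool → List Bool → Bool) (γ τ : List Bool) : Bool :=
  Nat.ble (cnt γ.length (fun Z => (τ == pre τ.length Z && e γ τ (pre γ.length Z)).toNat)
    * 2 ^ (τ.length + d) + 2 ^ γ.length) (2 ^ (γ.length + d))

/-- The strings of generation `k`. -/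
def Rk (C : Cs) (d : ℕ) (e : List Bool → List Bool → List Bool → Bool) : ℕ → List Bool → Prop
  | 0, _ => True
  | k + 1, σ => ∃ p < σ.length, MinS (Rk C d e k) (σ.take p) ∧
      e (pre σ.length C) (σ.take p) σ = true ∧ okb d e (pre σ.length C) (σ.take p) = true

theorem okb_iff (C : Cs) (d : ℕ) (e : List Bool → List Bool → List Bool → Bool) (τ : List Bool)
    {t : ℕ} (ht : τ.length ≤ t) : okb d e (pre t C) τ = true ↔
      coin (cyl τ ∩ {Y | e (pre t C) τ (pre t Y) = true}) + 2⁻¹ ^ (τ.length + d)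
        ≤ 2⁻¹ ^ τ.length := by
  have hd : Dep t (fun Z => τ == pre τ.length Z && e (pre t C) τ (pre t Z)) := by
    intro X Y h
    simp only [(dep_pre τ.length).mono ht X Y h, dep_pre t X Y h]
  have hs : cyl τ ∩ {Y | e (pre t C) τ (pre t Y) = true}
      = {Z | (τ == pre τ.length Z && e (pre t C) τ (pre t Z)) = true} := by
    ext Z; simp [mem_cyl_iff]
  unfold okb
  rw [Nat.ble_eq, length_pre, cnt_ok_iff hd, hs]

def rstep (d : ℕ) (e : List Bool → List Bool → List Bool → Bool) (γ σ : List Bool)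
    (L : List ℕ) : List ℕ :=
  (List.range (σ.length + 1)).filter fun m => (List.range m).any fun p =>
    (L.any fun x => x == p) && (L.all fun x => Nat.ble p x) &&
      e (pre m (toC γ)) (pre p (toC σ)) (pre m (toC σ)) && okb d e (pre m (toC γ)) (pre p (toC σ))

def rs (d : ℕ) (e : List Bool → List Bool → List Bool → Bool) (γ σ : List Bool) : ℕ → List ℕ
  | 0 => List.range (σ.length + 1)
  | k + 1 => rstep d e γ σ (rs d e γ σ k)

theorem mem_rs (C : Cs) (d : ℕ) (e : List Bool → List Bool → List Bool → Bool) (t : ℕ) (Y : Cs)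
    (k m : ℕ) : m ∈ rs d e (pre t C) (pre t Y) k ↔ m ≤ t ∧ Rk C d e k (pre m Y) := by
  induction k generalizing m with
  | zero => simp [rs, Rk]
  | succ k ih =>
    simp only [rs, rstep, Rk, List.mem_filter, List.mem_range, length_pre, List.any_eq_true,
      Bool.and_eq_true, beq_iff_eq, exists_eq_right, List.all_eq_true, Nat.ble_eq, ih,
      Nat.lt_succ_iff]
    refine and_congr_right fun hm => exists_congr fun p => and_congr_right fun hp => ?_
    rw [pre_toC_pre hm, pre_toC_pre hm, pre_toC_pre (by omega : p ≤ t), take_pre hp.le, and_assoc]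
    refine and_congr_left fun _ => ?_
    unfold MinS
    constructor
    · rintro ⟨⟨-, h1⟩, h2⟩
      refine ⟨h1, fun n hn h3 => ?_⟩
      rw [length_pre] at hn
      rw [take_pre hn.le] at h3
      have := h2 n ⟨by omega, h3⟩
      omega
    · rintro ⟨h1, h2⟩
      refine ⟨⟨by omega, h1⟩, fun x hx => ?_⟩
      by_contra hc
      refine h2 x (by simp; omega) ?_
      rw [take_pre (by omega)]
      exact hx.2

theorem Rk_dec (C : Cs) (d : ℕ) {e : List Bool → List Bool → List Bool → Bool}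
    (he : PR (fun p : List Bool × List Bool × List Bool => e p.1 p.2.1 p.2.2)) :
    ∃ Ψ : List Bool → ℕ → List Bool → Bool,
      PR (fun p : List Bool × ℕ × List Bool => Ψ p.1 p.2.1 p.2.2) ∧
      ∀ k t Y, Ψ (pre t C) k (pre t Y) = true ↔ Rk C d e k (pre t Y) := by
  have hok : PR (fun p : List Bool × List Bool => okb d e p.1 p.2) := by
    unfold okb
    have h1 : PR (fun q : (List Bool × List Bool) × List Bool =>
        e q.1.1 q.1.2 (pre q.1.1.length (toC q.2))) :=
      PR.comp' (g := fun q : (List Bool × List Bool) × List Bool =>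
        (q.1.1, q.1.2, pre q.1.1.length (toC q.2))) he (by fun_prop)
    have : PR (fun p : List Bool × List Bool => cnt p.1.length
        (fun Z => (p.2 == pre p.2.length Z && e p.1 p.2 (pre p.1.length Z)).toNat)) :=
      PR.cnt (by fun_prop) (by fun_prop)
    fun_prop
  have hstep : PR (fun q : (List Bool × List Bool) × List ℕ => rstep d e q.1.1 q.1.2 q.2) := by
    unfold rstep
    refine PR.filter (by fun_prop) (PR.any (by fun_prop) (PR.and (PR.and (PR.and (by fun_prop)
      (by fun_prop)) ?_) ?_))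
    · exact PR.comp' (g := fun r : (((List Bool × List Bool) × List ℕ) × ℕ) × ℕ =>
        (pre r.1.2 (toC r.1.1.1.1), pre r.2 (toC r.1.1.1.2), pre r.1.2 (toC r.1.1.1.2))) he
        (by fun_prop)
    · exact PR.comp' (g := fun r : (((List Bool × List Bool) × List ℕ) × ℕ) × ℕ =>
        (pre r.1.2 (toC r.1.1.1.1), pre r.2 (toC r.1.1.1.2))) hok (by fun_prop)
  have hrs : PR (fun p : List Bool × ℕ × List Bool => rs d e p.1 p.2.2 p.2.1) := by
    have h1 := Primrec.nat_rec' (f := fun p : List Bool × ℕ × List Bool => p.2.1)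
      (g := fun p : List Bool × ℕ × List Bool => List.range (p.2.2.length + 1))
      (h := fun (p : List Bool × ℕ × List Bool) (r : ℕ × List ℕ) => rstep d e p.1 p.2.2 r.2)
      (PR.primrec (by fun_prop)) (PR.primrec (by fun_prop))
      (PR.primrec (PR.comp' (g := fun q : (List Bool × ℕ × List Bool) × ℕ × List ℕ =>
        ((q.1.1, q.1.2.2), q.2.2)) hstep (by fun_prop)))
    refine h1.of_eq fun p => ?_
    induction p.2.1 with
    | zero => rfl
    | succ k ih => simp only [rs, ← ih]
  refine ⟨fun γ k σ => (rs d e γ σ k).any fun m => m == σ.length, by fun_prop, fun k t Y => ?_⟩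
  simp only [List.any_eq_true, beq_iff_eq, exists_eq_right, length_pre, mem_rs]
  simp

theorem Rk_step (C : Cs) (d : ℕ) {e : List Bool → List Bool → List Bool → Bool}
    (mono : ∀ τ t Y, e (pre t C) τ (pre t Y) = true → e (pre (t + 1) C) τ (pre (t + 1) Y) = true)
    (k : ℕ) : coin (Gen (Rk C d e (k + 1))) ≤
      ENNReal.ofReal (1 - (1 / 2) ^ d) * coin (Gen (Rk C d e k)) := by
  have mono' : ∀ τ t t' Y, t ≤ t' → e (pre t C) τ (pre t Y) = true →
      e (pre t' C) τ (pre t' Y) = true := by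
    intro τ t t' Y h H
    induction h with
    | refl => exact H
    | step _ ih => exact mono _ _ _ ih
  let F : List Bool → Set Cs := fun τ =>
    ⋃ t : {t // τ.length ≤ t ∧ okb d e (pre t C) τ = true},
      cyl τ ∩ {Y | e (pre t C) τ (pre t Y) = true}
  have hsub : Gen (Rk C d e (k + 1)) ⊆ ⋃ τ ∈ {τ | MinS (Rk C d e k) τ}, F τ := by
    rintro Y ⟨t, p, hp, h1, h2, h3⟩
    rw [length_pre] at hp h2 h3
    rw [take_pre hp.le] at h1 h2 h3
    exact Set.mem_biUnion (x := pre p Y) h1 (Set.mem_iUnion.2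
      ⟨⟨t, by simpa using hp.le, h3⟩, mem_cyl_pre p Y, h2⟩)
  refine (measure_mono hsub).trans (cover_le _ F _ fun τ _ => ?_)
  have hm : Monotone (fun t : {t // τ.length ≤ t ∧ okb d e (pre t C) τ = true} =>
      cyl τ ∩ {Y | e (pre t C) τ (pre t Y) = true}) :=
    fun a b hab Y hY => ⟨hY.1, mono' _ _ _ _ hab hY.2⟩
  rw [hm.directed_le.measure_iUnion]
  refine iSup_le fun t => ?_
  have h1 := (okb_iff C d e τ t.2.1).1 t.2.2
  have h2 : ENNReal.ofReal (1 - (1 / 2) ^ d) * 2⁻¹ ^ τ.length + 2⁻¹ ^ (τ.length + d)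
      = 2⁻¹ ^ τ.length := by
    have h3 : ((1 : ℝ) / 2) ^ d ≤ 1 := pow_le_one₀ (by norm_num) (by norm_num)
    rw [pow_add, mul_comm _ (2⁻¹ ^ d), ← add_mul, ← ofReal_half d,
      ← ENNReal.ofReal_add (by linarith) (by positivity)]
    simp
  rw [← h2] at h1
  exact ENNReal.le_of_add_le_add_right (by finiteness) h1

theorem Rk_small (C : Cs) (d : ℕ) {e : List Bool → List Bool → List Bool → Bool}
    (mono : ∀ τ t Y, e (pre t C) τ (pre t Y) = true → e (pre (t + 1) C) τ (pre (t + 1) Y) = true)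
    (n : ℕ) : coin (Gen (Rk C d e (n * 2 ^ d))) ≤ 2⁻¹ ^ n := by
  have h3 : ((1 : ℝ) / 2) ^ d ≤ 1 := pow_le_one₀ (by norm_num) (by norm_num)
  have h1 : ∀ k, coin (Gen (Rk C d e k)) ≤ ENNReal.ofReal ((1 - (1 / 2) ^ d) ^ k) := by
    intro k
    induction k with
    | zero => simpa using prob_le_one
    | succ k ih =>
      refine (Rk_step C d mono k).trans ?_
      rw [pow_succ', ENNReal.ofReal_mul (by linarith)]
      gcongr
  refine (h1 _).trans ?_
  rw [← ofReal_half]
  refine ENNReal.ofReal_le_ofReal ?_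
  rw [mul_comm, pow_mul]
  refine pow_le_pow_left₀ (pow_nonneg (by linarith) _) ?_ n
  have h4 : (1 : ℝ) + (2 ^ d : ℕ) * (1 / 2) ^ d ≤ (1 + (1 / 2) ^ d) ^ (2 ^ d) :=
    one_add_mul_le_pow (by have : (0 : ℝ) ≤ (1 / 2) ^ d := by positivity
                           linarith) _
  have h5 : ((2 ^ d : ℕ) : ℝ) * (1 / 2) ^ d = 1 := by
    push_cast; rw [← mul_pow]; norm_num
  have h6 : ((1 : ℝ) - (1 / 2) ^ d) ^ (2 ^ d) * (1 + (1 / 2) ^ d) ^ (2 ^ d) ≤ 1 := by
    rw [← mul_pow]
    have : (0 : ℝ) ≤ (1 / 2) ^ d := by positivity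
    exact pow_le_one₀ (mul_nonneg (by linarith) (by linarith)) (by nlinarith)
  have h7 : (0 : ℝ) ≤ (1 - (1 / 2) ^ d) ^ (2 ^ d) := pow_nonneg (by linarith) _
  rw [h5] at h4
  nlinarith

/-- If every initial segment of `X` has an open set enumerated from `C` that contains `X` and
leaves a fixed fraction of the cylinder, then `X` is not random relative to `C`. -/
theorem geo (C X : Cs) (d : ℕ) {e : List Bool → List Bool → List Bool → Bool}
    (he : PR (fun p : List Bool × List Bool × List Bool => e p.1 p.2.1 p.2.2))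
    (mono : ∀ τ t Y, e (pre t C) τ (pre t Y) = true → e (pre (t + 1) C) τ (pre (t + 1) Y) = true)
    (hX : ∀ n, ∃ t, e (pre t C) (pre n X) (pre t X) = true)
    (hμ : ∀ n, coin (cyl (pre n X) ∩ {Y | ∃ t, e (pre t C) (pre n X) (pre t Y) = true})
      + 2⁻¹ ^ (n + d) ≤ 2⁻¹ ^ n) : ¬ RandomIn C X := by
  obtain ⟨Ψ, hΨ, hΨ'⟩ := Rk_dec C d he
  have h1 : PR (fun p : List Bool × ℕ × List Bool => Ψ p.1 (p.2.1 * 2 ^ d) p.2.2) :=
    PR.comp' (g := fun p : List Bool × ℕ × List Bool => (p.1, p.2.1 * 2 ^ d, p.2.2)) hΨ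
      (by fun_prop)
  have h2 := test_of_stage C (Ψ := fun γ n σ => Ψ γ (n * 2 ^ d) σ) h1 fun n => by
    simp only [hΨ']
    exact Rk_small C d mono n
  have h3 : ∀ k, X ∈ Gen (Rk C d e k) := by
    intro k
    induction k with
    | zero => exact ⟨0, trivial⟩
    | succ k ih =>
      obtain ⟨p, hp⟩ := exists_min ih
      obtain ⟨t, ht⟩ := hX p
      have h4 : ∀ u, e (pre (t + u) C) (pre p X) (pre (t + u) X) = true := by
        intro u
        induction u with
        | zero => exact ht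
        | succ u ih => exact mono _ _ _ ih
      refine ⟨t + (p + 1), p, by simp; omega, ?_⟩
      rw [length_pre, take_pre (by omega)]
      refine ⟨hp, h4 _, (okb_iff C d e _ (by simp; omega)).2 ?_⟩
      rw [length_pre]
      refine le_trans ?_ (hμ p)
      gcongr
      exact fun h => ⟨_, h⟩
  intro hR
  refine hR _ h2 (Set.mem_iInter.2 fun n => ?_)
  simp only [hΨ']
  exact h3 _

end Pool.Agent.Lib.MP_3d42d9_lc.TR
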