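import Mathlib
import Pool.Agent.Lib.MP_3d42d9_lc.TR.Geo

namespace Pool.Agent.Lib.MP_3d42d9_lc.TR

open MeasureTheory

/-- Decides that `ρ` of length `u` is minimal for the stage function `Ψ`. -/
def minb (Ψ : List Bool → ℕ → List Bool → Bool) (γ : List Bool) (i u : ℕ) (ρ : List Bool) : Bool :=
  Ψ (pre u (toC γ)) i ρ && (List.range u).all fun m => !Ψ (pre m (toC γ)) i (pre m (toC ρ))

def eb (Ψ : List Bool → ℕ → List Bool → Bool) (g : List Bool → List Bool → Bool) (c : ℕ)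
    (γ τ σ : List Bool) : Bool :=
  (List.range (σ.length + 1)).any fun u => (allStr u).any fun ρ =>
    minb Ψ γ (τ.length + 2 * c + 1) u ρ && g ρ σ

theorem minb_iff (Ψ : List Bool → ℕ → List Bool → Bool) (C : Cs) (i : ℕ) {t : ℕ} {ρ : List Bool}
    (h : ρ.length ≤ t) : minb Ψ (pre t C) i ρ.length ρ = true ↔
      MinS (fun ρ => Ψ (pre ρ.length C) i ρ = true) ρ := by
  unfold minb MinS
  simp only [Bool.and_eq_true, List.all_eq_true, List.mem_range, Bool.not_eq_true']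
  rw [pre_toC_pre h]
  refine and_congr_right fun _ => forall_congr' fun m => forall_congr' fun hm => ?_
  rw [pre_toC_pre (by omega), pre_toC_take _ hm.le, List.length_take, min_eq_left hm.le]
  simp

theorem eb_iff (Ψ : List Bool → ℕ → List Bool → Bool) (g : List Bool → List Bool → Bool) (c : ℕ)
    (C : Cs) (τ : List Bool) (t : ℕ) (Y : Cs) : eb Ψ g c (pre t C) τ (pre t Y) = true ↔
      ∃ ρ : List Bool, ρ.length ≤ t ∧
        MinS (fun ρ => Ψ (pre ρ.length C) (τ.length + 2 * c + 1) ρ = true) ρ ∧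
        g ρ (pre t Y) = true := by
  unfold eb
  simp only [List.any_eq_true, List.mem_range, length_pre, Bool.and_eq_true]
  constructor
  · rintro ⟨u, hu, ρ, hρ, h1, h2⟩
    obtain rfl := length_of_mem_allStr hρ
    exact ⟨ρ, by omega, (minb_iff Ψ C _ (by omega)).1 h1, h2⟩
  · rintro ⟨ρ, h0, h1, h2⟩
    refine ⟨ρ.length, by omega, ρ, ?_, (minb_iff Ψ C _ h0).2 h1, h2⟩
    have := pre_mem_allStr ρ.length (toC ρ)
    rwa [pre_toC] at this

theorem pr_eb {Ψ : List Bool → ℕ → List Bool → Bool} {g : List Bool → List Bool → Bool} (c : ℕ)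
    (hΨ : PR (fun p : List Bool × ℕ × List Bool => Ψ p.1 p.2.1 p.2.2))
    (hg : PR (fun p : List Bool × List Bool => g p.1 p.2)) :
    PR (fun p : List Bool × List Bool × List Bool => eb Ψ g c p.1 p.2.1 p.2.2) := by
  unfold eb minb
  refine PR.any (by fun_prop) (PR.any (by fun_prop) (PR.and (PR.and ?_ (PR.all (by fun_prop)
    (PR.not ?_))) ?_))
  · exact PR.comp' (g := fun q : ((List Bool × List Bool × List Bool) × ℕ) × List Bool =>
      (pre q.1.2 (toC q.1.1.1), q.1.1.2.1.length + 2 * c + 1, q.2)) hΨ (by fun_prop)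
  · exact PR.comp' (g := fun q : (((List Bool × List Bool × List Bool) × ℕ) × List Bool) × ℕ =>
      (pre q.2 (toC q.1.1.1.1), q.1.1.1.2.1.length + 2 * c + 1, pre q.2 (toC q.1.2))) hΨ
      (by fun_prop)
  · exact PR.comp' (g := fun q : ((List Bool × List Bool × List Bool) × ℕ) × List Bool =>
      (q.2, q.1.1.2.2)) hg (by fun_prop)

/-- A cover inside a set in which `B` has positive density transfers randomness. -/
theorem back {A B : Cs} {P : Set Cs} {V : List Bool → Set Cs} {c : ℕ} (hP : MeasurableSet P)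
    (hV : UnifOpen V) (hd : ∀ n, 2⁻¹ ^ (n + c) ≤ coin (P ∩ cyl (pre n B)))
    (hμ : ∀ ρ : List Bool, coin (P ∩ V ρ) ≤ 2 ^ c * 2⁻¹ ^ ρ.length)
    (hB : ∀ n, B ∈ V (pre n A)) (C : Cs) (hC : RandomIn C B) : RandomIn C A := by
  by_contra hA
  unfold RandomIn at hA
  push Not at hA
  obtain ⟨U, hU, hAU⟩ := hA
  obtain ⟨Ψ, hΨ, hΨU⟩ := stage_of_test hU
  obtain ⟨g, hg, gmono, hgV⟩ := stage_of_unifOpen hV
  have gmono' : ∀ ρ t t' Y, t ≤ t' → g ρ (pre t Y) = true → g ρ (pre t' Y) = true := by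
    intro ρ t t' Y h H
    induction h with
    | refl => exact H
    | step _ ih => exact gmono _ _ _ ih
  have hGen : ∀ i, Gen (fun ρ => Ψ (pre ρ.length C) i ρ = true) = U i := by
    intro i
    rw [hΨU]
    ext Y
    simp [Gen]
  refine geo C B (c + 1) (pr_eb c hΨ hg) ?_ ?_ ?_ hC
  · intro τ t Y h
    obtain ⟨ρ, h0, h1, h2⟩ := (eb_iff _ _ _ _ _ _ _).1 h
    exact (eb_iff _ _ _ _ _ _ _).2 ⟨ρ, by omega, h1, gmono _ _ _ h2⟩
  · intro n
    have h1 := Set.mem_iInter.1 hAU ((pre n B).length + 2 * c + 1)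
    rw [← hGen] at h1
    obtain ⟨s, hs⟩ := exists_min h1
    have h2 := hB s
    rw [hgV] at h2
    obtain ⟨t, ht⟩ := h2
    exact ⟨s + t, (eb_iff _ _ _ _ _ _ _).2 ⟨pre s A, by simp, hs, gmono' _ _ _ _ (by omega) ht⟩⟩
  · intro n
    set R : List Bool → Prop := fun ρ => Ψ (pre ρ.length C) (n + 2 * c + 1) ρ = true with hR
    have h1 : cyl (pre n B) ∩ {Y | ∃ t, eb Ψ g c (pre t C) (pre n B) (pre t Y) = true} ⊆
        (cyl (pre n B) \ P) ∪ ⋃ ρ ∈ {ρ | MinS R ρ}, P ∩ V ρ := by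
      rintro Y ⟨hY, t, ht⟩
      by_cases hP' : Y ∈ P
      · obtain ⟨ρ, -, h1, h2⟩ := (eb_iff _ _ _ _ _ _ _).1 ht
        rw [length_pre] at h1
        refine Or.inr (Set.mem_biUnion (x := ρ) h1 ⟨hP', ?_⟩)
        rw [hgV]
        exact ⟨t, h2⟩
      · exact Or.inl ⟨hY, hP'⟩
    have h2 : coin (⋃ ρ ∈ {ρ | MinS R ρ}, P ∩ V ρ) ≤ 2⁻¹ ^ (n + (c + 1)) := by
      refine (cover_le R _ (2 ^ c) fun ρ _ => hμ ρ).trans ?_
      rw [hR, hGen]
      refine (mul_le_mul_right (hU.2 _) _).trans (le_of_eq ?_)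
      rw [show n + 2 * c + 1 = c + (n + (c + 1)) by omega, pow_add, ← mul_assoc, ← mul_pow,
        ENNReal.mul_inv_cancel (by norm_num) (by norm_num), one_pow, one_mul]
    have h3 : coin (cyl (pre n B) ∩ P) + coin (cyl (pre n B) \ P) = 2⁻¹ ^ n := by
      rw [measure_inter_add_sdiff _ hP, coin_cyl, length_pre]
    have h4 : (2⁻¹ : ENNReal) ^ (n + (c + 1)) + 2⁻¹ ^ (n + (c + 1)) = 2⁻¹ ^ (n + c) := by
      rw [← add_assoc, pow_succ, ← mul_add, ENNReal.inv_two_add_inv_two, mul_one]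
    have h5 := hd n
    rw [Set.inter_comm] at h5
    calc _ ≤ (coin (cyl (pre n B) \ P) + 2⁻¹ ^ (n + (c + 1))) + 2⁻¹ ^ (n + (c + 1)) := by
          gcongr
          exact (measure_mono h1).trans ((measure_union_le _ _).trans (by gcongr))
      _ = coin (cyl (pre n B) \ P) + 2⁻¹ ^ (n + c) := by rw [add_assoc, h4]
      _ ≤ coin (cyl (pre n B) \ P) + coin (cyl (pre n B) ∩ P) := by gcongr
      _ = 2⁻¹ ^ n := by rw [add_comm, h3]

end Pool.Agent.Lib.MP_3d42d9_lc.TR
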