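import Mathlib
import Pool.Agent.Lib.MP_3d42d9_lc.TR.Stage

namespace Pool.Agent.Lib.MP_3d42d9_lc.TR

open MeasureTheory Encodable

/-- Stage `s` of level `n` of a universal oracle test. -/
def UU (n s : ℕ) (X Z : Cs) : Bool := (List.range s).any fun q => Nat.ble n q && EE q s X Z

/-- The string coded by a position of the oracle. -/
def str (p : ℕ) : List Bool := (decode (α := List Bool) p.unpair.2).getD []

/-- The position of the oracle that plays the string `ρ` at level `j`. -/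
def pos (j : ℕ) (ρ : List Bool) : ℕ := Nat.pair j (encode ρ)

noncomputable def wt (p : ℕ) : ℝ := 2 ^ p.unpair.1 * (1 / 2) ^ (str p).length

/-- The plays of the oracle below `t` have total weight at most one. -/
def Legal (t : ℕ) (C : Cs) : Prop := ∑ p ∈ Finset.range t, ind (C p) * wt p ≤ 1

def KK (t : ℕ) : ℕ := ((List.range t).map fun p => (str p).length).sum

def legal (t : ℕ) (C : Cs) : Bool :=
  Nat.ble (((List.range t).map fun p =>
    (C p).toNat * (2 ^ p.unpair.1 * 2 ^ (KK t - (str p).length))).sum) (2 ^ KK t)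

def cons (κ : List ℕ) (t : ℕ) (C : Cs) : Bool := κ.all fun p => Nat.ble t p || C p

def vv (n : ℕ) (κ : List ℕ) (t : ℕ) (Y : Cs) : Bool :=
  (allStr t).all fun γ => !(legal t (toC γ) && cons κ t (toC γ)) || UU n t (toC γ) Y

abbrev Sta := List (List ℕ × List Bool)

def ll (n : ℕ) (S : Sta) (κ : List ℕ) (t : ℕ) (Y : Cs) : Bool :=
  vv n κ t Y || S.any fun x => x.1 == κ && x.2 == pre x.2.length Y

def hl (n : ℕ) (S : Sta) (κ : List ℕ) (t : ℕ) (Y : Cs) : Bool :=
  (List.range (t + 1)).any fun m =>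
    Nat.blt (cnt t (fun Z => (pre m Z == pre m Y && !ll n S κ t Z).toNat) * 2 ^ (m + κ.length + 1))
      (2 ^ t)

def pr (t : ℕ) : List ℕ × List Bool :=
  (decode (α := List ℕ × List Bool) t.unpair.1).getD ([], [])

def ch (κ : List ℕ) (ρ : List Bool) : List ℕ := pos κ.length ρ :: κ

def cc (κ : List ℕ) : ℕ := κ.length + encode κ + 1

def hv (n : ℕ) (S : Sta) (t : ℕ) : Bool :=
  Nat.blt (2 ^ t * 2 ^ cc (pr t).1)
    (cnt t (fun Z => (hl n S (ch (pr t).1 (pr t).2) t Z && !ll n S (pr t).1 t Z).toNat)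
      * 2 ^ (pr t).2.length)

def stp (n : ℕ) (S : Sta) (t : ℕ) : Sta :=
  bif hv n S t then
    S ++ ((allStr t).filter fun σ => hl n S (ch (pr t).1 (pr t).2) t (toC σ)).map
      (fun σ => ((pr t).1, σ))
  else S

def sta (n : ℕ) : ℕ → Sta
  | 0 => []
  | t + 1 => stp n (sta n t) t

def lb (n : ℕ) (κ : List ℕ) (t : ℕ) (Y : Cs) : Bool := ll n (sta n t) κ t Y

def hb (n : ℕ) (κ : List ℕ) (t : ℕ) (Y : Cs) : Bool := hl n (sta n t) κ t Y

def Vt (n : ℕ) (κ : List ℕ) (t : ℕ) : Set Cs := {Y | vv n κ t Y = true}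

def Lt (n : ℕ) (κ : List ℕ) (t : ℕ) : Set Cs := {Y | lb n κ t Y = true}

def Ht (n : ℕ) (κ : List ℕ) (t : ℕ) : Set Cs := {Y | hb n κ t Y = true}

/-- An absorption takes place at stage `t`. -/
def Ev (n t : ℕ) : Prop := hv n (sta n t) t = true

end Pool.Agent.Lib.MP_3d42d9_lc.TR
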