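import Mathlib
import Pool.Agent.Lib.MP_3d42d9_lc.TR.PDefs

namespace Pool.Agent.Lib.MP_3d42d9_lc.TR

open MeasureTheory Encodable

theorem psem_UU_iff {n s : ℕ} {X Z : Cs} :
    UU n s X Z = true ↔ ∃ q < s, n ≤ q ∧ EE q s X Z = true := by
  simp [UU]

theorem UU_mono {n s s' : ℕ} {X Z : Cs} (h : s ≤ s') (H : UU n s X Z = true) :
    UU n s' X Z = true := by
  rw [psem_UU_iff] at H ⊢
  obtain ⟨q, hq, hn, H⟩ := H
  exact ⟨q, hq.trans_le h, hn, EE_mono h H⟩

theorem UU_depX (n s : ℕ) (Z : Cs) : Dep s (fun X => UU n s X Z) := by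
  intro X Y H
  rw [Bool.eq_iff_iff, psem_UU_iff, psem_UU_iff]
  refine exists_congr fun q => and_congr_right fun _ => ?_
  rw [show EE q s X Z = EE q s Y Z from EE_depX q s Z X Y H]

theorem UU_depZ (n s : ℕ) (X : Cs) : Dep s (UU n s X) := by
  intro Z Y H
  rw [Bool.eq_iff_iff, psem_UU_iff, psem_UU_iff]
  refine exists_congr fun q => and_congr_right fun _ => ?_
  rw [EE_depZ q s X Z Y H]

theorem psem_EE_bound (q : ℕ) (C : Cs) :
    coin {Z | ∃ s, EE q s C Z = true} ≤ ENNReal.ofReal ((1 / 2) ^ (2 * q + 8)) := by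
  have hm : Monotone fun s => {Z | EE q s C Z = true} := fun _ _ h _ H => EE_mono h H
  rw [Set.setOf_exists, hm.measure_iUnion]
  refine iSup_le fun s => ?_
  rw [coin_dep (EE_depZ q s C)]
  exact ENNReal.ofReal_le_ofReal (EE_bound le_rfl C)

theorem UU_bound (n : ℕ) (C : Cs) :
    coin {Z | ∃ s, UU n s C Z = true} ≤ ENNReal.ofReal ((1 / 2) ^ (n + 7)) := by
  have h1 : {Z | ∃ s, UU n s C Z = true} ⊆ ⋃ k, {Z | ∃ s, EE (n + k) s C Z = true} := by
    rintro Z ⟨s, H⟩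
    obtain ⟨q, -, hn, H⟩ := psem_UU_iff.1 H
    obtain ⟨k, rfl⟩ := Nat.exists_eq_add_of_le hn
    exact Set.mem_iUnion.2 ⟨k, s, H⟩
  have h2 : ∀ k, coin {Z | ∃ s, EE (n + k) s C Z = true} ≤
      ENNReal.ofReal ((1 / 2) ^ (n + 8) * (1 / 2) ^ k) := fun k => by
    refine (psem_EE_bound _ C).trans (ENNReal.ofReal_le_ofReal ?_)
    rw [← pow_add]
    exact pow_le_pow_of_le_one (by norm_num) (by norm_num) (by omega)
  refine (measure_mono h1).trans ((measure_iUnion_le _).trans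
    ((ENNReal.tsum_le_tsum h2).trans (le_of_eq ?_)))
  rw [← ENNReal.ofReal_tsum_of_nonneg (fun _ => by positivity)
    (summable_geometric_two.mul_left _), tsum_mul_left, tsum_geometric_two]
  congr 1
  ring

theorem UU_capture {C Z : Cs} (h : ¬ RandomIn C Z) (n : ℕ) : ∃ s, UU n s C Z = true := by
  obtain ⟨e, he⟩ := capture h
  obtain ⟨s, hs⟩ := he n
  exact ⟨s + Nat.pair e n + 1, psem_UU_iff.2 ⟨_, by omega, Nat.right_le_pair e n,
    EE_mono (by omega) hs⟩⟩

theorem str_pos (j : ℕ) (ρ : List Bool) : str (pos j ρ) = ρ := by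
  simp [str, pos]

theorem lvl_pos (j : ℕ) (ρ : List Bool) : (pos j ρ).unpair.1 = j := by
  simp [pos]

theorem wt_pos (j : ℕ) (ρ : List Bool) : wt (pos j ρ) = 2 ^ j * (1 / 2) ^ ρ.length := by
  rw [wt, str_pos, lvl_pos]

theorem wt_nonneg (p : ℕ) : 0 ≤ wt p := by
  unfold wt
  positivity

theorem psem_sum (f : ℕ → ℕ) : ∀ t, ∑ p ∈ Finset.range t, f p = ((List.range t).map f).sum
  | 0 => rfl
  | t + 1 => by rw [Finset.sum_range_succ, psem_sum f t, List.sum_range_succ]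

theorem psem_pre_mem : ∀ (t : ℕ) (C : Cs), pre t C ∈ allStr t
  | 0, _ => by simp [pre, allStr]
  | t + 1, C => by
    have e : pre (t + 1) C = pre t C ++ [C t] := by simp [pre, List.range_succ]
    rw [e, allStr, List.mem_flatMap]
    exact ⟨_, psem_pre_mem t C, by cases C t <;> simp⟩

theorem legal_iff (t : ℕ) (C : Cs) : legal t C = true ↔ Legal t C := by
  have hK : ∀ p ∈ Finset.range t, (str p).length ≤ KK t := fun p hp =>
    List.single_le_sum (fun _ _ => Nat.zero_le _) _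
      (List.mem_map.2 ⟨p, List.mem_range.2 (Finset.mem_range.1 hp), rfl⟩)
  have e : ((∑ p ∈ Finset.range t,
      (C p).toNat * (2 ^ p.unpair.1 * 2 ^ (KK t - (str p).length)) : ℕ) : ℝ) =
      (∑ p ∈ Finset.range t, ind (C p) * wt p) * 2 ^ KK t := by
    rw [Nat.cast_sum, Finset.sum_mul]
    refine Finset.sum_congr rfl fun p hp => ?_
    obtain ⟨k, hk⟩ := Nat.exists_eq_add_of_le (hK p hp)
    rw [hk, Nat.add_sub_cancel_left, Nat.cast_mul, ind_toNat, wt, pow_add, one_div, inv_pow]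
    push_cast
    field_simp
  rw [legal, Nat.ble_eq, ← psem_sum, ← Nat.cast_le (α := ℝ), e, Legal]
  push_cast
  exact mul_le_iff_le_one_left (by positivity)

theorem Legal.anti {t t' : ℕ} {C : Cs} (h : t ≤ t') (H : Legal t' C) : Legal t C := by
  refine le_trans (Finset.sum_le_sum_of_subset_of_nonneg (Finset.range_mono h) fun p _ _ => ?_) H
  exact mul_nonneg (ind_nonneg _) (wt_nonneg p)

theorem Legal.congr {t : ℕ} {C C' : Cs} (h : ∀ i < t, C i = C' i) (H : Legal t C) :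
    Legal t C' := by
  refine le_trans (le_of_eq (Finset.sum_congr rfl fun p hp => ?_)) H
  rw [h p (Finset.mem_range.1 hp)]

theorem mem_Vt {n t : ℕ} {κ : List ℕ} {Y : Cs} : Y ∈ Vt n κ t ↔
    ∀ C, Legal t C → (∀ p ∈ κ, p < t → C p = true) → UU n t C Y = true := by
  have hc : ∀ C, cons κ t C = true ↔ ∀ p ∈ κ, p < t → C p = true := fun C => by
    simp only [cons, List.all_eq_true, Bool.or_eq_true, Nat.ble_eq]
    exact forall₂_congr fun p _ => by rw [← not_lt, ← imp_iff_not_or]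
  have e : Y ∈ Vt n κ t ↔ ∀ γ ∈ allStr t, Legal t (toC γ) →
      (∀ p ∈ κ, p < t → toC γ p = true) → UU n t (toC γ) Y = true := by
    simp only [Vt, Set.mem_ofPred_eq, vv, List.all_eq_true, Bool.or_eq_true, Bool.not_eq_true',
      ← legal_iff, ← hc]
    refine forall₂_congr fun γ _ => ?_
    cases legal t (toC γ) <;> cases cons κ t (toC γ) <;> simp
  rw [e]
  refine ⟨fun h C h1 h2 => ?_, fun h γ _ => h _⟩
  rw [← (UU_depX n t Y).toC_pre le_rfl C]
  exact h _ (psem_pre_mem t C) (h1.congr fun i hi => (toC_pre C hi).symm)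
    fun p hp hpt => (toC_pre C hpt).trans (h2 p hp hpt)

theorem Vt_mono (n : ℕ) (κ : List ℕ) : Monotone (Vt n κ) := by
  intro t t' h Y hY
  rw [mem_Vt] at hY ⊢
  exact fun C h1 h2 => UU_mono h (hY C (h1.anti h) fun p hp hpt => h2 p hp (hpt.trans_le h))

theorem vv_dep (n : ℕ) (κ : List ℕ) (t : ℕ) : Dep t (vv n κ t) := by
  intro X Y H
  unfold vv
  congr 1
  funext γ
  rw [UU_depZ n t (toC γ) X Y H]

theorem pr_visit (κ : List ℕ) (ρ : List Bool) (t₀ : ℕ) : ∃ t, t₀ ≤ t ∧ pr t = (κ, ρ) := by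
  exact ⟨Nat.pair (encode (κ, ρ)) t₀, Nat.right_le_pair _ _, by
    rw [pr, Nat.unpair_pair, encodek, Option.getD_some]⟩

end Pool.Agent.Lib.MP_3d42d9_lc.TR
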