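import Mathlib
import Pool.Agent.Lib.MP_3d42d9_lc.TR.PSem

namespace Pool.Agent.Lib.MP_3d42d9_lc.TR

open MeasureTheory Encodable

theorem pint_mem_stp {n t : ℕ} {S : Sta} {x : List ℕ × List Bool} : x ∈ stp n S t ↔
    x ∈ S ∨ (hv n S t = true ∧ x.1 = (pr t).1 ∧ x.2 ∈ allStr t ∧
      hl n S (ch (pr t).1 (pr t).2) t (toC x.2) = true) := by
  unfold stp
  cases hv n S t with
  | false => simp
  | true =>
    simp only [cond_true, List.mem_append, List.mem_map, List.mem_filter, true_and]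
    refine or_congr Iff.rfl ⟨?_, ?_⟩
    · rintro ⟨σ, ⟨h1, h2⟩, rfl⟩
      exact ⟨rfl, h1, h2⟩
    · rintro ⟨h1, h2, h3⟩
      exact ⟨x.2, ⟨h2, h3⟩, Prod.ext h1.symm rfl⟩

theorem pint_sta_len (n : ℕ) : ∀ t, ∀ x ∈ sta n t, x.2.length ≤ t
  | 0, x, h => by simp [sta] at h
  | t + 1, x, h => by
    rcases pint_mem_stp.1 h with h | ⟨-, -, h, -⟩
    · exact (pint_sta_len n t x h).trans (Nat.le_succ t)
    · rw [length_of_mem_allStr h]
      exact Nat.le_succ t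

theorem pint_ll_iff {n t : ℕ} {S : Sta} {κ : List ℕ} {Y : Cs} : ll n S κ t Y = true ↔
    vv n κ t Y = true ∨ ∃ x ∈ S, x.1 = κ ∧ x.2 = pre x.2.length Y := by
  simp [ll]

theorem pint_hl_dep (n : ℕ) (S : Sta) (κ : List ℕ) (t : ℕ) : Dep t (hl n S κ t) := by
  intro X Y H
  rw [Bool.eq_iff_iff]
  simp only [hl, List.any_eq_true, List.mem_range]
  refine exists_congr fun m => and_congr_right fun hm => ?_
  rw [(dep_pre m).mono (Nat.lt_succ_iff.1 hm) X Y H]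

theorem lb_dep (n : ℕ) (κ : List ℕ) (t : ℕ) : Dep t (lb n κ t) := by
  intro X Y H
  rw [Bool.eq_iff_iff, lb, lb, pint_ll_iff, pint_ll_iff, vv_dep n κ t X Y H]
  refine or_congr Iff.rfl (exists_congr fun x => and_congr_right fun hx => ?_)
  rw [(dep_pre x.2.length).mono (pint_sta_len n t x hx) X Y H]

theorem hb_dep (n : ℕ) (κ : List ℕ) (t : ℕ) : Dep t (hb n κ t) := by
  exact pint_hl_dep n (sta n t) κ t

theorem Lt_zero (n : ℕ) (κ : List ℕ) : Lt n κ 0 = ∅ := by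
  ext Y
  simp [Lt, lb, ll, sta, vv, allStr, legal, cons, UU]

theorem mem_Lt_succ {n t : ℕ} {κ : List ℕ} {Y : Cs} : Y ∈ Lt n κ (t + 1) ↔
    Y ∈ Vt n κ (t + 1) ∨ Y ∈ Lt n κ t ∨
      (Ev n t ∧ (pr t).1 = κ ∧ Y ∈ Ht n (ch κ (pr t).2) t) := by
  simp only [Lt, Vt, Ht, Ev, lb, hb, Set.mem_ofPred_eq, pint_ll_iff, sta, pint_mem_stp]
  constructor
  · rintro (h | ⟨x, h | ⟨h1, h2, h3, h4⟩, h5, h6⟩)
    · exact Or.inl h
    · exact Or.inr (Or.inl (Or.inr ⟨x, h, h5, h6⟩))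
    · rw [length_of_mem_allStr h3] at h6
      rw [h6, (pint_hl_dep _ _ _ t).toC_pre le_rfl, ← h2, h5] at h4
      exact Or.inr (Or.inr ⟨h1, h2.symm.trans h5, h4⟩)
  · rintro (h | (h | ⟨x, h, h5, h6⟩) | ⟨h1, h2, h3⟩)
    · exact Or.inl h
    · exact Or.inl (Vt_mono n κ (Nat.le_succ t) h)
    · exact Or.inr ⟨x, Or.inl h, h5, h6⟩
    · refine Or.inr ⟨(κ, pre t Y), Or.inr ⟨h1, h2.symm, pre_mem_allStr t Y, ?_⟩, rfl, by simp⟩
      rw [(pint_hl_dep _ _ _ t).toC_pre le_rfl, h2]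
      exact h3

theorem mem_Ht {n t : ℕ} {κ : List ℕ} {Y : Cs} : Y ∈ Ht n κ t ↔
    ∃ m ≤ t, coin (cyl (pre m Y) \ Lt n κ t) < 2⁻¹ ^ (m + κ.length + 1) := by
  simp only [Ht, hb, hl, Set.mem_ofPred_eq, List.any_eq_true, List.mem_range, Nat.blt_eq,
    Nat.lt_succ_iff]
  refine exists_congr fun m => and_congr_right fun hm => ?_
  have hd : Dep t (fun Z => (pre m Z == pre m Y && !lb n κ t Z)) :=
    ((dep_pre m).mono hm).comp₂ (lb_dep n κ t) (fun a b => (a == pre m Y && !b))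
  have he : {Z | (pre m Z == pre m Y && !lb n κ t Z) = true} = cyl (pre m Y) \ Lt n κ t := by
    ext Z
    simp [Lt, mem_cyl_iff, eq_comm (a := pre m Z)]
  rw [← he]
  exact cnt_lt_iff hd _

theorem Ev_iff {n t : ℕ} : Ev n t ↔ 2 ^ cc (pr t).1 * 2⁻¹ ^ (pr t).2.length <
    coin (Ht n (ch (pr t).1 (pr t).2) t \ Lt n (pr t).1 t) := by
  have hd : Dep t (fun Z => (hb n (ch (pr t).1 (pr t).2) t Z && !lb n (pr t).1 t Z)) :=
    (hb_dep n _ t).comp₂ (lb_dep n _ t) (fun a b => (a && !b))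
  have he : {Z | (hb n (ch (pr t).1 (pr t).2) t Z && !lb n (pr t).1 t Z) = true} =
      Ht n (ch (pr t).1 (pr t).2) t \ Lt n (pr t).1 t := by
    ext Z
    simp [Lt, Ht]
  rw [← he, Ev, hv, Nat.blt_eq]
  exact lt_cnt_iff hd _ _

theorem Lt_mono (n : ℕ) (κ : List ℕ) : Monotone (Lt n κ) :=
  monotone_nat_of_le_succ fun _ _ h => mem_Lt_succ.2 (Or.inr (Or.inl h))

theorem Ht_mono (n : ℕ) (κ : List ℕ) : Monotone (Ht n κ) := by
  intro s t hst Y h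
  obtain ⟨m, hm, h⟩ := mem_Ht.1 h
  exact mem_Ht.2 ⟨m, hm.trans hst,
    (measure_mono (Set.sdiff_subset_sdiff_right (Lt_mono n κ hst))).trans_lt h⟩

theorem Vt_sub_Lt (n : ℕ) (κ : List ℕ) (t : ℕ) : Vt n κ t ⊆ Lt n κ t :=
  fun _ h => pint_ll_iff.2 (Or.inl h)

theorem Lt_sub_Ht (n : ℕ) (κ : List ℕ) (t : ℕ) : Lt n κ t ⊆ Ht n κ t := by
  intro Y h
  refine mem_Ht.2 ⟨t, le_rfl, ?_⟩
  have : cyl (pre t Y) ⊆ Lt n κ t := fun Z hZ =>
    (lb_dep n κ t Z Y (pre_eq_iff.1 (mem_cyl_pre_iff.1 hZ))).trans h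
  rw [Set.sdiff_eq_empty.2 this, measure_empty]
  exact ENNReal.pow_pos (by simp) _

theorem Ht_sub_hull (n : ℕ) (κ : List ℕ) (t : ℕ) : Ht n κ t ⊆ hull κ.length (Lt n κ t) := by
  intro Y h
  obtain ⟨m, -, h⟩ := mem_Ht.1 h
  exact ⟨m, h⟩

theorem Lt_meas (n : ℕ) (κ : List ℕ) (t : ℕ) : MeasurableSet (Lt n κ t) :=
  measurableSet_dep (lb_dep n κ t)

/-- In the limit no child is heavy. -/
theorem limit (n : ℕ) (κ : List ℕ) (ρ : List Bool) :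
    coin ((⋃ t, Ht n (ch κ ρ) t) \ ⋃ t, Lt n κ t) ≤ 2 ^ cc κ * 2⁻¹ ^ ρ.length := by
  have hm : Monotone fun t => Ht n (ch κ ρ) t \ ⋃ t, Lt n κ t :=
    fun s t hst => Set.sdiff_subset_sdiff_left (Ht_mono n _ hst)
  rw [Set.iUnion_sdiff, hm.measure_iUnion]
  refine iSup_le fun t₀ => ?_
  by_contra hc
  obtain ⟨t, ht, hp⟩ := pr_visit κ ρ t₀
  have h1 : Ht n (ch κ ρ) t₀ \ (⋃ t, Lt n κ t) ⊆ Ht n (ch κ ρ) t \ Lt n κ t :=
    Set.sdiff_subset_sdiff (Ht_mono n _ ht) (Set.subset_iUnion (Lt n κ) t)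
  have hE : Ev n t := by
    rw [Ev_iff, hp]
    exact (not_le.1 hc).trans_le (measure_mono h1)
  have h2 : Ht n (ch κ ρ) t₀ ⊆ ⋃ t, Lt n κ t := by
    intro Y hY
    refine Set.mem_iUnion.2 ⟨t + 1, mem_Lt_succ.2 (Or.inr (Or.inr ⟨hE, by rw [hp], ?_⟩))⟩
    rw [hp]
    exact Ht_mono n _ ht hY
  apply hc
  rw [Set.sdiff_eq_empty.2 h2, measure_empty]
  exact bot_le

theorem dens {n : ℕ} {κ : List ℕ} {Y : Cs} (h : Y ∉ ⋃ t, Ht n κ t) (m : ℕ) :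
    2⁻¹ ^ (m + κ.length + 1) ≤ coin (cyl (pre m Y) \ ⋃ t, Lt n κ t) := by
  have ha : Antitone fun t => cyl (pre m Y) \ Lt n κ t :=
    fun s t hst => Set.sdiff_subset_sdiff_right (Lt_mono n κ hst)
  rw [Set.sdiff_iUnion, ha.measure_iInter
    (fun t => ((measurableSet_cyl _).diff (Lt_meas n κ t)).nullMeasurableSet)
    ⟨0, measure_ne_top _ _⟩]
  refine le_iInf fun t => ?_
  refine le_trans ?_ (measure_mono (ha (le_max_left t m)))
  by_contra hc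
  exact h (Set.mem_iUnion.2 ⟨max t m, mem_Ht.2 ⟨m, le_max_right t m, not_le.1 hc⟩⟩)

end Pool.Agent.Lib.MP_3d42d9_lc.TR
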