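import Mathlib
import Pool.Agent.Lib.MP_3d42d9_lc.TR.PInt

namespace Pool.Agent.Lib.MP_3d42d9_lc.TR

open MeasureTheory Encodable

theorem ev_gain {n t : ℕ} (h : Ev n t) : wt (pos (pr t).1.length (pr t).2) ≤
    (1 / 2) ^ (encode (pr t).1 + 1) *
      (coin.real (Lt n (pr t).1 (t + 1)) - coin.real (Lt n (pr t).1 t)) := by
  have h1 : Ht n (ch (pr t).1 (pr t).2) t \ Lt n (pr t).1 t ⊆
      Lt n (pr t).1 (t + 1) \ Lt n (pr t).1 t := fun Y hY =>
    ⟨mem_Lt_succ.2 (Or.inr (Or.inr ⟨h, rfl, hY.1⟩)), hY.2⟩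
  have h2 := ENNReal.toReal_mono (measure_ne_top coin _) ((Ev_iff.1 h).le.trans (measure_mono h1))
  have h3 := measureReal_sdiff (μ := coin) (Lt_mono n (pr t).1 (Nat.le_succ t)) (Lt_meas n _ t)
  rw [← h3, wt_pos]
  simp only [ENNReal.toReal_mul, ENNReal.toReal_pow, ENNReal.toReal_inv, ENNReal.toReal_ofNat,
    cc] at h2
  have h4 : (2 : ℝ) ^ (pr t).1.length * (1 / 2) ^ (pr t).2.length =
      (1 / 2) ^ (encode (pr t).1 + 1) * (2 ^ ((pr t).1.length + encode (pr t).1 + 1) *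
        2⁻¹ ^ (pr t).2.length) := by
    simp only [one_div, inv_pow]
    field_simp
    ring
  rw [h4]
  exact mul_le_mul_of_nonneg_left h2 (by positivity)

open Classical in
/-- The absorbed plays have total weight at most one. -/
theorem ev_sum (n T : ℕ) :
    ∑ t ∈ (Finset.range T).filter (fun t => Ev n t), wt (pos (pr t).1.length (pr t).2) ≤ 1 := by
  set K := (Finset.range T).image fun t => (pr t).1 with hK
  have h0 : ∀ (κ : List ℕ) (t : ℕ), 0 ≤ (1 / 2 : ℝ) ^ (encode κ + 1) *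
      (coin.real (Lt n κ (t + 1)) - coin.real (Lt n κ t)) := fun κ t =>
    mul_nonneg (by positivity) (sub_nonneg.2 (measureReal_mono (Lt_mono n κ (Nat.le_succ t))))
  calc _ ≤ ∑ t ∈ (Finset.range T).filter (fun t => Ev n t), ∑ κ ∈ K, (1 / 2 : ℝ) ^ (encode κ + 1) *
        (coin.real (Lt n κ (t + 1)) - coin.real (Lt n κ t)) := by
        refine Finset.sum_le_sum fun t ht => (ev_gain (Finset.mem_filter.1 ht).2).trans ?_
        exact Finset.single_le_sum (f := fun κ : List ℕ => (1 / 2 : ℝ) ^ (encode κ + 1) *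
          (coin.real (Lt n κ (t + 1)) - coin.real (Lt n κ t))) (fun κ _ => h0 κ t)
          (Finset.mem_image_of_mem _ (Finset.mem_filter.1 ht).1)
    _ ≤ ∑ t ∈ Finset.range T, ∑ κ ∈ K, (1 / 2 : ℝ) ^ (encode κ + 1) *
        (coin.real (Lt n κ (t + 1)) - coin.real (Lt n κ t)) :=
        Finset.sum_le_sum_of_subset_of_nonneg (Finset.filter_subset _ _)
          fun t _ _ => Finset.sum_nonneg fun κ _ => h0 κ t
    _ ≤ ∑ κ ∈ K, (1 / 2 : ℝ) ^ (encode κ + 1) := by
        rw [Finset.sum_comm]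
        refine Finset.sum_le_sum fun κ _ => ?_
        rw [← Finset.mul_sum, Finset.sum_range_sub fun t => coin.real (Lt n κ t)]
        refine mul_le_of_le_one_right (by positivity) ?_
        linarith [measureReal_le_one (μ := coin) (s := Lt n κ T),
          measureReal_nonneg (μ := coin) (s := Lt n κ 0)]
    _ = ∑ k ∈ K.image encode, (1 : ℝ) / 2 / 2 ^ k := by
        rw [Finset.sum_image fun a _ b _ h => encode_injective h]
        refine Finset.sum_congr rfl fun κ _ => ?_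
        rw [pow_succ, one_div, inv_pow]
        field_simp
    _ ≤ 1 := sum_le_hasSum _ (fun k _ => by positivity) (hasSum_geometric_two' 1)

/-- A legal oracle that makes all absorbed plays. -/
theorem exists_Cst (n : ℕ) : ∃ C : Cs, (∀ T, Legal T C) ∧
    ∀ t, Ev n t → C (pos (pr t).1.length (pr t).2) = true := by
  classical
  refine ⟨fun p => decide (∃ t, Ev n t ∧ pos (pr t).1.length (pr t).2 = p), fun T => ?_,
    fun t ht => decide_eq_true ⟨t, ht, rfl⟩⟩
  have h1 : ∀ p, ∃ τ, (∃ t, Ev n t ∧ pos (pr t).1.length (pr t).2 = p) →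
      Ev n τ ∧ pos (pr τ).1.length (pr τ).2 = p := fun p => by
    by_cases h : ∃ t, Ev n t ∧ pos (pr t).1.length (pr t).2 = p
    · obtain ⟨t, ht⟩ := h
      exact ⟨t, fun _ => ht⟩
    · exact ⟨0, fun h' => absurd h' h⟩
  choose τ hτ using h1
  refine le_trans ?_ (ev_sum n ((Finset.range T).sup τ + 1))
  refine le_trans ?_ (Finset.sum_image_le_of_nonneg (f := wt)
    (g := fun t => pos (pr t).1.length (pr t).2) fun p _ => wt_nonneg p)
  calc _ = ∑ p ∈ (Finset.range T).filter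
        (fun p => ∃ t, Ev n t ∧ pos (pr t).1.length (pr t).2 = p), wt p := by
        rw [Finset.sum_filter]
        refine Finset.sum_congr rfl fun p _ => ?_
        by_cases h : ∃ t, Ev n t ∧ pos (pr t).1.length (pr t).2 = p <;> simp [ind, h]
    _ ≤ _ := by
        refine Finset.sum_le_sum_of_subset_of_nonneg (fun p hp => ?_) fun p _ _ => wt_nonneg p
        obtain ⟨h2, h3⟩ := Finset.mem_filter.1 hp
        exact Finset.mem_image.2 ⟨τ p, Finset.mem_filter.2 ⟨Finset.mem_range.2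
          (Nat.lt_succ_of_le (Finset.le_sup (f := τ) h2)), (hτ p h3).1⟩, (hτ p h3).2⟩

/-- Everything lost at level `j` by stage `t` along nodes played by `C`. -/
def TT (n : ℕ) (C : Cs) (j t : ℕ) : Set Cs :=
  {Z | ∃ s, UU n s C Z = true} ∪
    {Z | ∃ κ : List ℕ, κ.length = j ∧ (∀ p ∈ κ, C p = true) ∧ Z ∈ Lt n κ t}

theorem TT_mono (n : ℕ) (C : Cs) (j : ℕ) : Monotone (TT n C j) := by
  intro t t' h Z hZ
  rcases hZ with hZ | ⟨κ, h1, h2, h3⟩
  · exact Or.inl hZ
  · exact Or.inr ⟨κ, h1, h2, Lt_mono n κ h h3⟩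

theorem UU_hull (n : ℕ) (C : Cs) (i j t : ℕ) {Z : Cs} {s : ℕ} (h : UU n s C Z = true) :
    Z ∈ hull i (TT n C j t) := by
  refine mem_hull_of_cyl i (m := s) fun Y hY => Or.inl ⟨s, ?_⟩
  rw [UU_depZ n s C Y Z (pre_eq_iff.1 (mem_cyl_pre_iff.1 hY))]
  exact h

theorem TT_step {n : ℕ} {C : Cs} (hL : ∀ T, Legal T C)
    (hE : ∀ t, Ev n t → C (pos (pr t).1.length (pr t).2) = true) (j t : ℕ) :
    TT n C j (t + 1) ⊆ hull (j + 1) (TT n C (j + 1) t) := by
  have key : ∀ κ : List ℕ, κ.length = j → (∀ p ∈ κ, C p = true) → ∀ u, u ≤ t + 1 →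
      Lt n κ u ⊆ hull (j + 1) (TT n C (j + 1) t) := by
    intro κ h1 h2 u
    induction u with
    | zero => intro _; rw [Lt_zero]; exact Set.empty_subset _
    | succ u ih =>
      intro hu Z hZ
      rcases mem_Lt_succ.1 hZ with h | h | ⟨h3, h4, h5⟩
      · exact UU_hull n C _ _ _ (mem_Vt.1 h C (hL _) fun p hp _ => h2 p hp)
      · exact ih (by omega) h
      · have h6 := Ht_sub_hull n _ u h5
        have h7 : (ch κ (pr u).2).length = j + 1 := by simp [ch, h1]
        rw [h7] at h6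
        refine hull_mono _ (fun Y hY => ?_) h6
        refine TT_mono n C _ (by omega : u ≤ t) (Or.inr ⟨_, h7, ?_, hY⟩)
        intro p hp
        rcases List.mem_cons.1 hp with rfl | hp
        · have := hE u h3
          rwa [h4] at this
        · exact h2 p hp
  intro Z hZ
  rcases hZ with ⟨s, hs⟩ | ⟨κ, h1, h2, h3⟩
  · exact UU_hull n C _ _ _ hs
  · exact key κ h1 h2 _ le_rfl h3

theorem TT_bound {n : ℕ} {C : Cs} (hL : ∀ T, Legal T C)
    (hE : ∀ t, Ev n t → C (pos (pr t).1.length (pr t).2) = true) (t : ℕ) :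
    ∀ j, coin (TT n C j t) ≤ ENNReal.ofReal ((1 / 2) ^ (n + 7) * (1 + (1 / 2) ^ j)) := by
  induction t with
  | zero =>
    intro j
    have : TT n C j 0 = {Z | ∃ s, UU n s C Z = true} := by
      simp [TT, Lt_zero]
    rw [this]
    refine (UU_bound n C).trans (ENNReal.ofReal_le_ofReal ?_)
    have h1 : (0 : ℝ) ≤ (1 / 2) ^ j := by positivity
    have h2 : (0 : ℝ) ≤ (1 / 2) ^ (n + 7) := by positivity
    nlinarith
  | succ t ih =>
    intro j
    exact (measure_mono (TT_step hL hE j t)).trans (hull_bound (by positivity) (ih (j + 1)))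

theorem root_bound (n : ℕ) : coin (⋃ t, Ht n [] t) ≤ 2⁻¹ ^ n := by
  obtain ⟨C, hL, hE⟩ := exists_Cst n
  rw [(Ht_mono n []).measure_iUnion]
  refine iSup_le fun t => ?_
  have h1 : Ht n [] t ⊆ hull 0 (TT n C 0 t) :=
    (Ht_sub_hull n [] t).trans (hull_mono _ fun Y hY => Or.inr ⟨[], rfl, by simp, hY⟩)
  refine (measure_mono h1).trans
    ((hull_zero_bound (by positivity) (TT_bound hL hE t 0)).trans ?_)
  rw [← ofReal_half]
  refine ENNReal.ofReal_le_ofReal ?_
  have h2 : (0 : ℝ) ≤ (1 / 2) ^ n := by positivity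
  rw [pow_add]
  nlinarith

end Pool.Agent.Lib.MP_3d42d9_lc.TR
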