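import Mathlib
import Pool.Agent.Lib.MP_3d42d9_lc.TR.PDefs

namespace Pool.Agent.Lib.MP_3d42d9_lc.TR

open MeasureTheory Encodable

theorem pr_str : PR str := by
  have h : PR (fun p : ℕ => decode (α := List Bool) p.unpair.2) :=
    Primrec.decode.comp (PR.primrec (by fun_prop))
  exact PR.optGetD h (PR.const' _)

theorem pr_pos : PR (fun p : ℕ × List Bool => pos p.1 p.2) := by
  unfold pos
  fun_prop

theorem pr_ch : PR (fun p : List ℕ × List Bool => ch p.1 p.2) := by
  unfold ch pos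
  fun_prop

theorem ppr_pr : PR pr := by
  have h : PR (fun t : ℕ => decode (α := List ℕ × List Bool) t.unpair.1) :=
    Primrec.decode.comp (PR.primrec (by fun_prop))
  exact PR.optGetD h (PR.const' _)

theorem ppr_KK : PR KK := by
  exact PR.sum (PR.map (g := fun (_ : ℕ) p => (str p).length) (PR.range PR.id')
    (PR.length (PR.comp' pr_str (by fun_prop))))

section
variable {α : Type} [Primcodable α]

@[fun_prop] theorem ppr_str {f : α → ℕ} (hf : PR f) : PR (fun a => str (f a)) :=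
  PR.comp' pr_str hf

@[fun_prop] theorem ppr_pr' {f : α → ℕ} (hf : PR f) : PR (fun a => pr (f a)) :=
  PR.comp' ppr_pr hf

@[fun_prop] theorem ppr_KK' {f : α → ℕ} (hf : PR f) : PR (fun a => KK (f a)) :=
  PR.comp' ppr_KK hf

@[fun_prop] theorem ppr_ch {κ : α → List ℕ} {ρ : α → List Bool} (hκ : PR κ) (hρ : PR ρ) :
    PR (fun a => ch (κ a) (ρ a)) := by
  unfold ch pos
  fun_prop

@[fun_prop] theorem ppr_cc {κ : α → List ℕ} (hκ : PR κ) : PR (fun a => cc (κ a)) := by
  unfold cc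
  fun_prop

@[fun_prop] theorem ppr_UU {n s : α → ℕ} {X Z : α → Cs} (hn : PR n) (hs : PR s)
    (hX : PR (fun p : α × ℕ => X p.1 p.2)) (hZ : PR (fun p : α × ℕ => Z p.1 p.2)) :
    PR (fun a => UU (n a) (s a) (X a) (Z a)) := by
  unfold UU
  fun_prop

@[fun_prop] theorem ppr_legal {t : α → ℕ} {C : α → Cs} (ht : PR t)
    (hC : PR (fun p : α × ℕ => C p.1 p.2)) : PR (fun a => legal (t a) (C a)) := by
  unfold legal
  fun_prop

@[fun_prop] theorem ppr_cons {κ : α → List ℕ} {t : α → ℕ} {C : α → Cs} (hκ : PR κ) (ht : PR t)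
    (hC : PR (fun p : α × ℕ => C p.1 p.2)) : PR (fun a => cons (κ a) (t a) (C a)) := by
  unfold cons
  fun_prop

@[fun_prop] theorem ppr_vv {n t : α → ℕ} {κ : α → List ℕ} {Y : α → Cs} (hn : PR n) (hκ : PR κ)
    (ht : PR t) (hY : PR (fun p : α × ℕ => Y p.1 p.2)) :
    PR (fun a => vv (n a) (κ a) (t a) (Y a)) := by
  unfold vv
  fun_prop

@[fun_prop] theorem ppr_ll {n t : α → ℕ} {S : α → Sta} {κ : α → List ℕ} {Y : α → Cs}
    (hn : PR n) (hS : PR S) (hκ : PR κ) (ht : PR t) (hY : PR (fun p : α × ℕ => Y p.1 p.2)) :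
    PR (fun a => ll (n a) (S a) (κ a) (t a) (Y a)) := by
  unfold ll
  fun_prop

@[fun_prop] theorem ppr_hl {n t : α → ℕ} {S : α → Sta} {κ : α → List ℕ} {Y : α → Cs}
    (hn : PR n) (hS : PR S) (hκ : PR κ) (ht : PR t) (hY : PR (fun p : α × ℕ => Y p.1 p.2)) :
    PR (fun a => hl (n a) (S a) (κ a) (t a) (Y a)) := by
  unfold hl
  have h : PR (fun p : α × ℕ => cnt (t p.1) (fun Z =>
      (pre p.2 Z == pre p.2 (Y p.1) && !ll (n p.1) (S p.1) (κ p.1) (t p.1) Z).toNat)) :=
    PR.cnt (by fun_prop) (by fun_prop)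
  exact PR.any (by fun_prop) (PR.blt (PR.mul h (by fun_prop)) (by fun_prop))

@[fun_prop] theorem ppr_hv {n t : α → ℕ} {S : α → Sta} (hn : PR n) (hS : PR S) (ht : PR t) :
    PR (fun a => hv (n a) (S a) (t a)) := by
  unfold hv
  have h : PR (fun a : α => cnt (t a) (fun Z =>
      (hl (n a) (S a) (ch (pr (t a)).1 (pr (t a)).2) (t a) Z &&
        !ll (n a) (S a) (pr (t a)).1 (t a) Z).toNat)) :=
    PR.cnt ht (by fun_prop)
  exact PR.blt (by fun_prop) (PR.mul h (by fun_prop))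

@[fun_prop] theorem ppr_stp {n t : α → ℕ} {S : α → Sta} (hn : PR n) (hS : PR S) (ht : PR t) :
    PR (fun a => stp (n a) (S a) (t a)) := by
  unfold stp
  fun_prop

end

theorem ppr_sta : PR (fun p : ℕ × ℕ => sta p.1 p.2) := by
  have h1 : PR (fun q : ℕ × ℕ × Sta => stp q.1 q.2.2 q.2.1) := by fun_prop
  have h2 : Primrec₂ (fun (n t : ℕ) =>
      (Nat.rec ([] : Sta) (fun t S => stp n S t) t : Sta)) :=
    Primrec.nat_rec (f := fun _ : ℕ => ([] : Sta)) (g := fun n q => stp n q.2 q.1)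
      (Primrec.const _) h1.primrec
  refine Primrec₂.of_eq h2 fun n t => ?_
  induction t with
  | zero => rfl
  | succ t ih => simp only [sta, ← ih]

theorem pr_lb : PR (fun p : ℕ × List ℕ × List Bool =>
    lb p.1 p.2.1 p.2.2.length (toC p.2.2)) := by
  unfold lb
  have h : PR (fun p : ℕ × List ℕ × List Bool => sta p.1 p.2.2.length) :=
    PR.comp' (g := fun p : ℕ × List ℕ × List Bool => (p.1, p.2.2.length)) ppr_sta (by fun_prop)
  exact ppr_ll (by fun_prop) h (by fun_prop) (by fun_prop) (by fun_prop)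

theorem pr_hb : PR (fun p : ℕ × List ℕ × List Bool =>
    hb p.1 p.2.1 p.2.2.length (toC p.2.2)) := by
  unfold hb
  have h : PR (fun p : ℕ × List ℕ × List Bool => sta p.1 p.2.2.length) :=
    PR.comp' (g := fun p : ℕ × List ℕ × List Bool => (p.1, p.2.2.length)) ppr_sta (by fun_prop)
  exact ppr_hl (by fun_prop) h (by fun_prop) (by fun_prop) (by fun_prop)

end Pool.Agent.Lib.MP_3d42d9_lc.TR
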