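import Mathlib
import Pool.Agent.Lib.MP_3d42d9_lc.TR.PInt
import Pool.Agent.Lib.MP_3d42d9_lc.TR.PPR

namespace Pool.Agent.Lib.MP_3d42d9_lc.TR

open MeasureTheory Encodable

theorem compact_closed {N : ℕ} {S : Set Cs}
    (h : ∀ X Y : Cs, (∀ i < N, X i = Y i) → X ∈ S → Y ∈ S) : IsClosed S := by
  rw [← isOpen_compl_iff, isOpen_iff_forall_mem_open]
  intro X hX
  refine ⟨⋂ i ∈ Finset.range N, {Y : Cs | Y i = X i}, fun Y hY hS => hX (h Y X ?_ hS), ?_, ?_⟩
  · intro i hi
    exact Set.mem_iInter₂.1 hY i (Finset.mem_range.2 hi)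
  · refine isOpen_biInter_finset fun i _ => ?_
    exact (isOpen_discrete ({X i} : Set Bool)).preimage
      (continuous_apply (A := fun _ : ℕ => Bool) i)
  · exact Set.mem_iInter₂.2 fun _ _ => rfl

theorem compact {n : ℕ} {B : Cs} {κs : ℕ → List ℕ} (hm : ∀ m, κs m ⊆ κs (m + 1))
    (h : ∀ m t, B ∉ Vt n (κs m) t) : ∃ C : Cs, (∀ t, Legal t C) ∧
      (∀ m, ∀ p ∈ κs m, C p = true) ∧ ∀ s, UU n s C B = false := by
  have hmono : ∀ {a b : ℕ}, a ≤ b → κs a ⊆ κs b := fun {a b} hab => by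
    induction hab with
    | refl => exact fun _ h => h
    | step _ ih => exact fun x hx => hm _ (ih hx)
  let K : ℕ → Set Cs := fun m =>
    {C | Legal m C ∧ (∀ p ∈ κs m, p < m → C p = true) ∧ UU n m C B = false}
  have hcl : ∀ m, IsClosed (K m) := fun m => compact_closed (N := m) fun X Y hXY hX =>
    ⟨hX.1.congr hXY, fun p hp hpm => (hXY p hpm) ▸ hX.2.1 p hp hpm,
      (UU_depX n m B X Y hXY).symm.trans hX.2.2⟩
  have hne : ∀ m, (K m).Nonempty := fun m => by
    have h1 := h m m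
    rw [mem_Vt] at h1
    push Not at h1
    obtain ⟨C, a, b, c⟩ := h1
    exact ⟨C, a, b, by simpa using c⟩
  have hdec : ∀ m, K (m + 1) ⊆ K m := fun m C hC =>
    ⟨hC.1.anti (Nat.le_succ m), fun p hp hpm => hC.2.1 p (hm m hp) (by omega), by
      rw [← Bool.not_eq_true]
      intro h1
      have h2 := UU_mono (Nat.le_succ m) h1
      rw [hC.2.2] at h2
      cases h2⟩
  obtain ⟨C, hC⟩ := IsCompact.nonempty_iInter_of_sequence_nonempty_isCompact_isClosed K hdec hne
    (hcl 0).isCompact hcl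
  rw [Set.mem_iInter] at hC
  exact ⟨C, fun t => (hC t).1, fun m p hp =>
    (hC (m + p + 1)).2.1 p (hmono (by omega) hp) (by omega), fun s => (hC s).2.2⟩

/-- The test read off from the plays of the oracle. -/
def nonrandom_psi (γ : List Bool) (j : ℕ) (σ : List Bool) : Bool :=
  (List.range γ.length).any fun p => toC γ p && (p.unpair.1 == j &&
    (Nat.ble (str p).length σ.length && str p == pre (str p).length (toC σ)))

theorem nonrandom_pr :
    PR (fun p : List Bool × ℕ × List Bool => nonrandom_psi p.1 p.2.1 p.2.2) := by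
  unfold nonrandom_psi
  have h : PR (fun q : (List Bool × ℕ × List Bool) × ℕ => str q.2) :=
    PR.comp' pr_str (by fun_prop)
  refine PR.any (by fun_prop) (PR.and (by fun_prop) (PR.and (by fun_prop)
    (PR.and (PR.ble (PR.length h) (by fun_prop)) (PR.beq h (PR.pre (PR.length h) ?_)))))
  fun_prop

theorem nonrandom_iff {C Y : Cs} {j t : ℕ} : nonrandom_psi (pre t C) j (pre t Y) = true ↔
    ∃ p < t, C p = true ∧ p.unpair.1 = j ∧ (str p).length ≤ t ∧ Y ∈ cyl (str p) := by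
  unfold nonrandom_psi
  simp only [List.any_eq_true, List.mem_range, Bool.and_eq_true, beq_iff_eq, Nat.ble_eq,
    length_pre]
  refine exists_congr fun p => and_congr_right fun hp => ?_
  rw [toC_pre C hp]
  refine and_congr_right fun _ => and_congr_right fun _ => and_congr_right fun h => ?_
  rw [pre_toC_pre h, mem_cyl_iff]

theorem nonrandom_bound {C : Cs} (hL : ∀ t, Legal t C) (j : ℕ) :
    coin {Y | ∃ t, nonrandom_psi (pre t C) j (pre t Y) = true} ≤ 2⁻¹ ^ j := by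
  classical
  have h1 : {Y | ∃ t, nonrandom_psi (pre t C) j (pre t Y) = true} ⊆
      ⋃ p, if C p = true ∧ p.unpair.1 = j then cyl (str p) else ∅ := by
    rintro Y ⟨t, ht⟩
    obtain ⟨p, -, a, b, -, c⟩ := nonrandom_iff.1 ht
    exact Set.mem_iUnion.2 ⟨p, by rw [if_pos ⟨a, b⟩]; exact c⟩
  refine ((measure_mono h1).trans (measure_iUnion_le _)).trans ?_
  have h2 : ∀ p, coin (if C p = true ∧ p.unpair.1 = j then cyl (str p) else ∅) ≤
      ENNReal.ofReal ((1 / 2) ^ j * (ind (C p) * wt p)) := by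
    intro p
    split_ifs with hp
    · rw [coin_cyl, ← ofReal_half, hp.1, ind_true, one_mul, wt, hp.2, ← mul_assoc, ← mul_pow]
      norm_num
    · simp
  refine (ENNReal.tsum_le_tsum h2).trans (ENNReal.tsum_le_of_sum_range_le fun t => ?_)
  rw [← ENNReal.ofReal_sum_of_nonneg fun p _ =>
    mul_nonneg (by positivity) (mul_nonneg (ind_nonneg _) (wt_nonneg _)), ← Finset.mul_sum,
    ← ofReal_half]
  exact ENNReal.ofReal_le_ofReal (mul_le_of_le_one_right (by positivity) (hL t))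

theorem nonrandom {A C : Cs} (hL : ∀ t, Legal t C) (h : ∀ j, ∃ s, C (pos j (pre s A)) = true) :
    ¬ RandomIn C A := by
  intro hR
  refine hR _ (test_of_stage C nonrandom_pr (nonrandom_bound hL)) (Set.mem_iInter.2 fun j => ?_)
  obtain ⟨s, hs⟩ := h j
  refine ⟨pos j (pre s A) + 1 + s, nonrandom_iff.2 ⟨pos j (pre s A), by omega, hs, lvl_pos _ _, ?_⟩⟩
  rw [str_pos, length_pre]
  exact ⟨by omega, mem_cyl_pre s A⟩

theorem chain {n : ℕ} {A B : Cs} (hroot : B ∉ ⋃ t, Ht n [] t)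
    (hstep : ∀ κ, B ∉ (⋃ t, Ht n κ t) → ∃ s, B ∉ ⋃ t, Ht n (ch κ (pre s A)) t) :
    ∃ C, RandomIn C B ∧ ¬ RandomIn C A := by
  choose f hf using hstep
  let G : ℕ → {κ : List ℕ // B ∉ ⋃ t, Ht n κ t} := fun m =>
    Nat.rec ⟨[], hroot⟩ (fun _ x => ⟨ch x.1 (pre (f x.1 x.2) A), hf x.1 x.2⟩) m
  have hG : ∀ m, (G (m + 1)).1 = ch (G m).1 (pre (f (G m).1 (G m).2) A) := fun _ => rfl
  have hlen : ∀ m, (G m).1.length = m := fun m => by
    induction m with
    | zero => rfl
    | succ m ih => rw [hG, ch, List.length_cons, ih]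
  obtain ⟨C, h1, h2, h3⟩ := compact (n := n) (B := B) (κs := fun m => (G m).1)
    (fun m => by rw [hG, ch]; exact List.subset_cons_self _ _)
    (fun m t hB => (G m).2 (Set.mem_iUnion.2 ⟨t, Lt_sub_Ht _ _ _ (Vt_sub_Lt _ _ _ hB)⟩))
  refine ⟨C, ?_, nonrandom h1 fun j => ⟨f (G j).1 (G j).2, h2 (j + 1) _ ?_⟩⟩
  · by_contra hR
    obtain ⟨s, hs⟩ := UU_capture hR n
    rw [h3 s] at hs
    cases hs
  · rw [hG, ch, hlen]
    exact List.mem_cons_self

end Pool.Agent.Lib.MP_3d42d9_lc.TR
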