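import Mathlib
import Pool.Agent.Lib.MP_3d42d9_lc.TR.Back
import Pool.Agent.Lib.MP_3d42d9_lc.TR.Bound
import Pool.Agent.Lib.MP_3d42d9_lc.TR.Chain

namespace Pool.Agent.Lib.MP_3d42d9_lc.TR

open MeasureTheory Encodable

theorem Ht_eq (n : ℕ) (κ : List ℕ) : (⋃ t, Ht n κ t) =
    {Y | ∃ t, hb n κ (pre t Y).length (toC (pre t Y)) = true} := by
  ext Y
  simp only [Set.mem_iUnion, Set.mem_ofPred_eq, length_pre]
  refine exists_congr fun t => ?_
  rw [(hb_dep n κ t).toC_pre le_rfl]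
  rfl

theorem Lt_eq (n : ℕ) (κ : List ℕ) : (⋃ t, Lt n κ t) =
    {Y | ∃ t, lb n κ (pre t Y).length (toC (pre t Y)) = true} := by
  ext Y
  simp only [Set.mem_iUnion, Set.mem_ofPred_eq, length_pre]
  refine exists_congr fun t => ?_
  rw [(lb_dep n κ t).toC_pre le_rfl]
  rfl

theorem forth {A B : Cs} (H : ∀ C, RandomIn C B → RandomIn C A) :
    ∃ (P : Set Cs) (V : List Bool → Set Cs) (c : ℕ), EffClosed P ∧ UnifOpen V ∧
      (∀ n, 2⁻¹ ^ (n + c) ≤ coin (P ∩ cyl (pre n B))) ∧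
      (∀ ρ : List Bool, coin (P ∩ V ρ) ≤ 2 ^ c * 2⁻¹ ^ ρ.length) ∧ ∀ n, B ∈ V (pre n A) := by
  by_cases h0 : ∀ n, B ∈ ⋃ t, Ht n [] t
  · refine ⟨Set.univ, fun ρ => ⋃ t, Ht ρ.length [] t, 0, ?_, ?_, ?_, ?_, ?_⟩
    · have := effClosed_of_stage (g := fun _ => false) (by fun_prop)
      simpa using this
    · have h1 : PR (fun p : List Bool × List Bool => hb p.1.length [] p.2.length (toC p.2)) :=
        PR.comp' (g := fun p : List Bool × List Bool => (p.1.length, ([] : List ℕ), p.2)) pr_hb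
          (by fun_prop)
      have := unifOpen_of_stage (g := fun ρ σ => hb ρ.length [] σ.length (toC σ)) h1
      simpa only [Ht_eq] using this
    · intro n
      simp [coin_cyl]
    · intro ρ
      simpa using root_bound ρ.length
    · intro n
      exact h0 _
  · push Not at h0
    obtain ⟨n, hn⟩ := h0
    have h2 : ∃ κ, B ∉ (⋃ t, Ht n κ t) ∧ ∀ s, B ∈ ⋃ t, Ht n (ch κ (pre s A)) t := by
      by_contra hc
      push Not at hc
      obtain ⟨C, h3, h4⟩ := chain (A := A) hn hc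
      exact h4 (H C h3)
    obtain ⟨κ, h3, h4⟩ := h2
    refine ⟨(⋃ t, Lt n κ t)ᶜ, fun ρ => ⋃ t, Ht n (ch κ ρ) t, cc κ, ?_, ?_, ?_, ?_, h4⟩
    · have h1 : PR (fun σ : List Bool => lb n κ σ.length (toC σ)) :=
        PR.comp' (g := fun σ : List Bool => (n, κ, σ)) pr_lb (by fun_prop)
      rw [Lt_eq]
      exact effClosed_of_stage h1
    · have h5 : PR (fun p : List Bool × List Bool => ch κ p.1) :=
        PR.comp' (g := fun p : List Bool × List Bool => (κ, p.1)) pr_ch (by fun_prop)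
      have h1 : PR (fun p : List Bool × List Bool => hb n (ch κ p.1) p.2.length (toC p.2)) :=
        PR.comp' (g := fun p : List Bool × List Bool => (n, ch κ p.1, p.2)) pr_hb (by fun_prop)
      have := unifOpen_of_stage (g := fun ρ σ => hb n (ch κ ρ) σ.length (toC σ)) h1
      simpa only [Ht_eq] using this
    · intro m
      rw [Set.inter_comm, ← Set.sdiff_eq]
      refine le_trans ?_ (dens h3 m)
      exact pow_le_pow_right_of_le_one' (by simp) (by unfold cc; omega)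
    · intro ρ
      rw [Set.inter_comm, ← Set.sdiff_eq]
      exact limit n κ ρ

theorem main (A B : Cs) : (∀ C, RandomIn C B → RandomIn C A) ↔
    ∃ (P : Set Cs) (V : List Bool → Set Cs) (c : ℕ), EffClosed P ∧ UnifOpen V ∧
      (∀ n, 2⁻¹ ^ (n + c) ≤ coin (P ∩ cyl (pre n B))) ∧
      (∀ ρ : List Bool, coin (P ∩ V ρ) ≤ 2 ^ c * 2⁻¹ ^ ρ.length) ∧ ∀ n, B ∈ V (pre n A) :=
  ⟨forth, fun ⟨_, _, _, h1, h2, h3, h4, h5⟩ C hC => back (EffClosed.meas h1) h2 h3 h4 h5 C hC⟩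

end Pool.Agent.Lib.MP_3d42d9_lc.TR
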